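import Mathlib

set_option autoImplicit false

namespace Pool.Agent.Helper425.FA

/-- continuous real functions with the topology of pointwise convergence -/
abbrev Cp (X : Type) [TopologicalSpace X] : Type := {f : X → ℝ // Continuous f}

/-- the first uncountable ordinal, as a type -/
abbrev W1 : Type := (Cardinal.aleph 1).ord.ToType

end Pool.Agent.Helper425.FA
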