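import Mathlib
import Pool.Agent.Helper425.FA.Basic

set_option autoImplicit false


open Set Topology Filter

namespace Pool.Agent.Helper425.FA





/-- almost disjoint sets -/
def adM (β : ℕ → Bool) : Set ℕ := {m | ∃ n, m = Encodable.encode (List.ofFn fun k : Fin n => β k)}

theorem adM_infinite (β : ℕ → Bool) : (adM β).Infinite := by
  have h1 : adM β = Set.range (fun n : ℕ => Encodable.encode (List.ofFn fun k : Fin n => β k)) := by
    ext m
    constructor
    · rintro ⟨n, rfl⟩
      exact ⟨n, rfl⟩
    · rintro ⟨n, rfl⟩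
      exact ⟨n, rfl⟩
  rw [h1]
  apply Set.infinite_range_of_injective
  intro n n' h
  have h2 := Encodable.encode_injective h
  have h3 := congrArg List.length h2
  simpa using h3

theorem adM_inter {β β' : ℕ → Bool} (h : β ≠ β') : (adM β ∩ adM β').Finite := by
  obtain ⟨k, hk⟩ : ∃ k, β k ≠ β' k := by
    by_contra hcon
    push Not at hcon
    exact h (funext hcon)
  refine ((Set.finite_Iic k).image
    (fun n : ℕ => Encodable.encode (List.ofFn fun k : Fin n => β k))).subset ?_
  rintro m ⟨⟨n, hn⟩, ⟨n', hn'⟩⟩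
  refine ⟨n, ?_, hn.symm⟩
  rw [Set.mem_Iic]
  by_contra hlt
  push Not at hlt
  have h2 : (List.ofFn fun k : Fin n => β k) = (List.ofFn fun k : Fin n' => β' k) :=
    Encodable.encode_injective (hn.symm.trans hn')
  have h3 : n = n' := by
    have := congrArg List.length h2
    simpa using this
  subst h3
  have h4 := List.ofFn_injective h2
  exact hk (congrFun h4 ⟨k, hlt⟩)

theorem adM_clopen (m : ℕ) : IsClopen {β : ℕ → Bool | m ∈ adM β} := by
  by_cases hm : ∃ l : List Bool, Encodable.encode l = m
  · obtain ⟨l, rfl⟩ := hm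
    have h1 : {β : ℕ → Bool | Encodable.encode l ∈ adM β} =
        (fun (β : ℕ → Bool) (k : Fin l.length) => β k) ⁻¹' {f | List.ofFn f = l} := by
      ext β
      constructor
      · rintro ⟨n, hn⟩
        have h2 : l = List.ofFn fun k : Fin n => β k := Encodable.encode_injective hn
        have h3 : l.length = n := by
          rw [h2]
          simp
        subst h3
        exact h2.symm
      · intro h
        have h2 : List.ofFn (fun k : Fin l.length => β k) = l := h
        exact ⟨l.length, by rw [h2]⟩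
    rw [h1]
    exact (isClopen_discrete _).preimage (by fun_prop)
  · have h1 : {β : ℕ → Bool | m ∈ adM β} = ∅ := by
      ext β
      simp only [Set.mem_empty_iff_false, iff_false]
      rintro ⟨n, hn⟩
      exact hm ⟨_, hn.symm⟩
    rw [h1]
    exact isClopen_empty

theorem ad_uncountable (r : Set (ℕ → Bool)) (hr : r.Countable) : ∃ β, β ∉ r := by
  by_contra hcon
  push Not at hcon
  have h1 : r = Set.univ := Set.eq_univ_of_forall hcon
  rw [h1, Set.countable_univ_iff] at hr
  have h2 : Cardinal.mk (ℕ → Bool) ≤ Cardinal.aleph0 := Cardinal.mk_le_aleph0_iff.2 hr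
  have h3 : Cardinal.mk (ℕ → Bool) = 2 ^ Cardinal.aleph0 := by
    rw [← Cardinal.power_def, Cardinal.mk_bool, Cardinal.mk_nat]
  rw [h3] at h2
  exact absurd (Cardinal.cantor Cardinal.aleph0) (not_lt.2 h2)

/-- TARGET: prove this.
Proof. For `β : ℕ → Bool` let `M β = {Encodable.encode (List.ofFn fun k : Fin n => β k) | n}`: these are infinite sets and
`M β ∩ M β'` is finite for `β ≠ β'`. Suppose no `M β` works; choose for each `β` a point `p β ∈ closure (⋃ n, A n)`, not in any `closure (A n)`,
with `g (M β) (p β) ≠ 0`. For `β' ≠ β`: on `⋃ A n` we have `g (M β) * g (M β') = ∑_{m ∈ M β ∩ M β'} (b m)^2` (because `b m * b m' = 0` for `m ≠ m'`: `b m = 0` on `A n` and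
`closure (A n)` for `n ≤ m`, and `b m = 0` off `closure (A (m+1))`; each point `x ∈ A n` kills `b m` for `m ≥ n`), a finite sum of continuous functions,
so the identity persists on `closure (⋃ A n)`; at `p β` all `b m` vanish (`hb1`), so `g (M β) (p β) * g (M β') (p β) = 0` and `g (M β') (p β) = 0`.
Let `Ψ = {f : Cp X | ∃ β, ∀ x ∈ ⋃ n, A n, f x = g (M β) x}`. `Ψ` is closed: the map `β ↦ (x ↦ g (M β) x)` from the compact space `ℕ → Bool` to `(⋃ A n) → ℝ` is continuous
(for `x ∈ A n` the value depends on finitely many conditions `m ∈ M β`, `m < n`, each of them clopen in `β`), so its range is compact, hence closed, and `Ψ` is its preimage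
under restriction.  If `f ∈ Ψ` with `f = g (M β)` on `⋃ A n` then `f = g (M β)` on the closure, so `f (p β) ≠ 0`. So the open sets `V β = {f | f (p β) ≠ 0}` cover the Lindelöf set `Ψ`;
a countable subfamily covers; pick `β` outside this countable set of indices (`ℕ → Bool` is uncountable): `g (M β) ∈ Ψ` is in no `V β'`, `β' ≠ β`. Contradiction. -/
theorem ad_lemma (X : Type) [TopologicalSpace X] [LindelofSpace (Cp X)] (A : ℕ → Set X)
    (hmono : Monotone A) (b : ℕ → Cp X) (hb0 : ∀ n, ∀ x ∈ A n, (b n).1 x = 0)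
    (hb1 : ∀ n x, x ∉ closure (A (n+1)) → (b n).1 x = 0) (g : Set ℕ → Cp X)
    (hg : ∀ (M : Set ℕ) (n : ℕ), ∀ x ∈ A n, (g M).1 x = ∑ m ∈ (Finset.range n), M.indicator (fun m => (b m).1 x) m) :
    ∃ M : Set ℕ, M.Infinite ∧ ∀ p ∈ closure (⋃ n, A n), (∀ n, p ∉ closure (A n)) → (g M).1 p = 0 := by
  classical
  by_contra hcon
  have hch : ∀ β : ℕ → Bool, ∃ p ∈ closure (⋃ n, A n), (∀ n, p ∉ closure (A n)) ∧
      (g (adM β)).1 p ≠ 0 := by
    intro β
    by_contra h
    push Not at h
    exact hcon ⟨adM β, adM_infinite β, h⟩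
  choose p hp1 hp2 hp3 using hch
  -- products vanish
  have hcl : ∀ m, ∀ x ∈ closure (A m), (b m).1 x = 0 := by
    intro m x hx
    have hc : IsClosed {x | (b m).1 x = 0} := isClosed_eq (b m).2 continuous_const
    exact closure_minimal (fun y hy => hb0 m y hy) hc hx
  have hbb' : ∀ m m', m < m' → ∀ x, (b m).1 x * (b m').1 x = 0 := by
    intro m m' hmm x
    by_cases hx : x ∈ closure (A (m + 1))
    · rw [hcl m' x (closure_mono (hmono hmm) hx), mul_zero]
    · rw [hb1 m x hx, zero_mul]
  have hbb : ∀ m m', m ≠ m' → ∀ x, (b m).1 x * (b m').1 x = 0 := by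
    intro m m' hmm x
    rcases lt_or_gt_of_ne hmm with h | h
    · exact hbb' m m' h x
    · rw [mul_comm]
      exact hbb' m' m h x
  have hzero : ∀ β β' : ℕ → Bool, β ≠ β' → (g (adM β')).1 (p β) = 0 := by
    intro β β' hne
    have hfin := adM_inter hne
    have hprod : ∀ x ∈ ⋃ n, A n, (g (adM β)).1 x * (g (adM β')).1 x =
        ∑ m ∈ hfin.toFinset, (b m).1 x ^ 2 := by
      intro x hx
      obtain ⟨n, hn⟩ := Set.mem_iUnion.1 hx
      rw [hg (adM β) n x hn, hg (adM β') n x hn, Finset.sum_mul_sum]
      have h1 : ∀ i ∈ Finset.range n, ∑ j ∈ Finset.range n,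
          (adM β).indicator (fun m => (b m).1 x) i * (adM β').indicator (fun m => (b m).1 x) j =
          (adM β ∩ adM β').indicator (fun m => (b m).1 x ^ 2) i := by
        intro i hi
        rw [Finset.sum_eq_single i]
        · by_cases h2 : i ∈ adM β
          · by_cases h3 : i ∈ adM β'
            · rw [Set.indicator_of_mem h2, Set.indicator_of_mem h3,
                Set.indicator_of_mem (show i ∈ adM β ∩ adM β' from ⟨h2, h3⟩), pow_two]
            · rw [Set.indicator_of_notMem h3,
                Set.indicator_of_notMem (fun h : i ∈ adM β ∩ adM β' => h3 h.2), mul_zero]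
          · rw [Set.indicator_of_notMem h2,
              Set.indicator_of_notMem (fun h : i ∈ adM β ∩ adM β' => h2 h.1), zero_mul]
        · intro j _ hji
          by_cases h2 : i ∈ adM β
          · by_cases h3 : j ∈ adM β'
            · rw [Set.indicator_of_mem h2, Set.indicator_of_mem h3]
              exact hbb i j (Ne.symm hji) x
            · rw [Set.indicator_of_notMem h3, mul_zero]
          · rw [Set.indicator_of_notMem h2, zero_mul]
        · intro h
          exact absurd hi h
      rw [Finset.sum_congr rfl h1]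
      have h4 : ∑ m ∈ hfin.toFinset, (b m).1 x ^ 2 =
          ∑ m ∈ hfin.toFinset.filter (fun m => m < n), (b m).1 x ^ 2 := by
        symm
        apply Finset.sum_filter_of_ne
        intro m _ hm
        by_contra hle
        push Not at hle
        apply hm
        rw [hb0 m x (hmono hle hn)]
        norm_num
      rw [h4, Finset.sum_indicator_eq_sum_filter]
      refine Finset.sum_congr ?_ (fun _ _ => rfl)
      ext m
      rw [Finset.mem_filter, Finset.mem_filter, Finset.mem_range, Set.Finite.mem_toFinset]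
      exact and_comm
    have hcl2 : IsClosed {x | (g (adM β)).1 x * (g (adM β')).1 x =
        ∑ m ∈ hfin.toFinset, (b m).1 x ^ 2} :=
      isClosed_eq ((g (adM β)).2.mul (g (adM β')).2)
        (continuous_finsetSum _ (fun m _ => (b m).2.pow 2))
    have h5 : (g (adM β)).1 (p β) * (g (adM β')).1 (p β) =
        ∑ m ∈ hfin.toFinset, (b m).1 (p β) ^ 2 :=
      closure_minimal (fun x hx => hprod x hx) hcl2 (hp1 β)
    rw [Finset.sum_eq_zero (fun m _ => by
      rw [hb1 m (p β) (hp2 β (m + 1))]
      norm_num)] at h5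
    exact (mul_eq_zero.1 h5).resolve_left (hp3 β)
  -- the closed set
  obtain ⟨Ψ, hΨ⟩ : ∃ Ψ : Set (Cp X), Ψ = {f | ∃ β, ∀ x ∈ ⋃ n, A n, f.1 x = (g (adM β)).1 x} :=
    ⟨_, rfl⟩
  have hΨc : IsClosed Ψ := by
    obtain ⟨Φ, hΦ⟩ : ∃ Φ : (ℕ → Bool) → ((⋃ n, A n : Set X) → ℝ),
        ∀ β x, Φ β x = (g (adM β)).1 x := ⟨fun β x => (g (adM β)).1 x, fun _ _ => rfl⟩
    have hΦc : Continuous Φ := by
      refine continuous_pi ?_
      rintro ⟨x, hx⟩
      obtain ⟨n, hn⟩ := Set.mem_iUnion.1 hx
      have h1 : (fun β => Φ β ⟨x, hx⟩) = fun β => ∑ m ∈ Finset.range n,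
          {β : ℕ → Bool | m ∈ adM β}.indicator (fun _ => (b m).1 x) β := by
        funext β
        rw [hΦ, hg (adM β) n x hn]
        refine Finset.sum_congr rfl ?_
        intro m _
        by_cases h2 : m ∈ adM β
        · rw [Set.indicator_of_mem h2,
            Set.indicator_of_mem (show β ∈ {β : ℕ → Bool | m ∈ adM β} from h2)]
        · rw [Set.indicator_of_notMem h2,
            Set.indicator_of_notMem (show β ∉ {β : ℕ → Bool | m ∈ adM β} from h2)]
      rw [h1]
      refine continuous_finsetSum _ ?_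
      intro m _
      refine Continuous.indicator ?_ continuous_const
      intro a ha
      rw [(adM_clopen m).frontier_eq] at ha
      exact absurd ha (Set.notMem_empty a)
    have h2 : IsClosed (Set.range Φ) := (isCompact_range hΦc).isClosed
    have h3 : Ψ = (fun (f : Cp X) (x : (⋃ n, A n : Set X)) => f.1 x) ⁻¹' (Set.range Φ) := by
      rw [hΨ]
      ext f
      constructor
      · rintro ⟨β, hβ⟩
        refine ⟨β, ?_⟩
        funext x
        rw [hΦ]
        exact (hβ x.1 x.2).symm
      · rintro ⟨β, hβ⟩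
        refine ⟨β, ?_⟩
        intro x hx
        have := congrFun hβ ⟨x, hx⟩
        rw [hΦ] at this
        exact this.symm
    rw [h3]
    refine h2.preimage (continuous_pi ?_)
    intro x
    exact (continuous_apply (x : X)).comp continuous_subtype_val
  have hev : ∀ x : X, Continuous (fun f : Cp X => f.1 x) := fun x =>
    (continuous_apply x).comp continuous_subtype_val
  obtain ⟨r, hr, hcov⟩ := hΨc.isLindelof.elim_countable_subcover
    (fun β : ℕ → Bool => {f : Cp X | f.1 (p β) ≠ 0})
    (fun β => isOpen_ne_fun (hev _) continuous_const) (by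
      intro f hf
      rw [hΨ] at hf
      obtain ⟨β, hβ⟩ := hf
      refine Set.mem_iUnion.2 ⟨β, ?_⟩
      have hc : IsClosed {x | f.1 x = (g (adM β)).1 x} := isClosed_eq f.2 (g (adM β)).2
      have h1 : f.1 (p β) = (g (adM β)).1 (p β) :=
        closure_minimal (fun x hx => hβ x hx) hc (hp1 β)
      change f.1 (p β) ≠ 0
      rw [h1]
      exact hp3 β)
  obtain ⟨β, hβ⟩ := ad_uncountable r hr
  have hgΨ : g (adM β) ∈ Ψ := by
    rw [hΨ]
    exact ⟨β, fun _ _ => rfl⟩
  obtain ⟨β', hβ', hne⟩ := Set.mem_iUnion₂.1 (hcov hgΨ)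
  have hne2 : β' ≠ β := fun h => hβ (h ▸ hβ')
  exact hne (hzero β' β hne2)

end Pool.Agent.Helper425.FA
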