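import Mathlib
import Pool.Agent.Helper425.FA.Basic

set_option autoImplicit false


open Set Topology Filter

namespace Pool.Agent.Helper425.FA





/-- TARGET: prove this.
Proof. Give `X` the discrete/bounded functions: work in the complete metric space `BoundedContinuousFunction X ℝ`
(`X →ᵇ ℝ`), the map `b ↦ (⟨b, _⟩ : Cp X)` is continuous, so the preimages of `F n` are closed and cover; by
`nonempty_interior_of_iUnion_of_closed` one of them contains a closed ball `closedBall b0 ε`.  For `g : Cp X` with `|g - b0| ≤ ε`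
pointwise, `g` is bounded, so it is in this ball. -/
theorem baire_lemma (X : Type) [TopologicalSpace X] (F : ℕ → Set (Cp X))
    (hF : ∀ n, IsClosed (F n)) (hU : ∀ f, ∃ n, f ∈ F n) :
    ∃ n, ∃ f0 : Cp X, ∃ ε > 0, ∀ g : Cp X, (∀ x, |g.1 x - f0.1 x| ≤ ε) → g ∈ F n := by
  let φ : BoundedContinuousFunction X ℝ → Cp X := fun b => ⟨b, b.continuous⟩
  have hφ : Continuous φ := by
    apply Continuous.subtype_mk
    exact continuous_pi fun x => continuous_eval_const x
  have hc : ∀ n, IsClosed (φ ⁻¹' F n) := fun n => (hF n).preimage hφ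
  have hcov : ⋃ n, φ ⁻¹' F n = univ := by
    rw [eq_univ_iff_forall]
    intro b
    obtain ⟨n, hn⟩ := hU (φ b)
    exact mem_iUnion.2 ⟨n, hn⟩
  obtain ⟨n, b0, hb0⟩ := nonempty_interior_of_iUnion_of_closed hc hcov
  obtain ⟨ε, hε, hball⟩ := Metric.nhds_basis_closedBall.mem_iff.1 (mem_interior_iff_mem_nhds.1 hb0)
  refine ⟨n, φ b0, ε, hε, fun g hg => ?_⟩
  have hbd : ∀ x, ‖g.1 x‖ ≤ ‖b0‖ + ε := by
    intro x
    have h1 := hg x
    have h2 := b0.norm_coe_le_norm x
    have h3 : ‖g.1 x‖ ≤ ‖b0 x‖ + ‖g.1 x - b0 x‖ := by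
      have := norm_add_le (b0 x) (g.1 x - b0 x)
      simpa using this
    have h4 : ‖g.1 x - b0 x‖ ≤ ε := h1
    linarith
  let bg : BoundedContinuousFunction X ℝ :=
    BoundedContinuousFunction.ofNormedAddCommGroup g.1 g.2 (‖b0‖ + ε) hbd
  have h5 : bg ∈ Metric.closedBall b0 ε := by
    rw [Metric.mem_closedBall, BoundedContinuousFunction.dist_le hε.le]
    intro x
    rw [Real.dist_eq]
    exact hg x
  have h6 : φ bg ∈ F n := hball h5
  have h7 : φ bg = g := by
    apply Subtype.ext
    rfl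
  rw [← h7]
  exact h6

end Pool.Agent.Helper425.FA
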