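import Mathlib
import Pool.Agent.Helper425.FA.Basic

set_option autoImplicit false

namespace Pool.Agent.Helper425.FA


open Set



theorem ci_countable (γ : W1) : (Set.Iio γ).Countable := by
  rw [Cardinal.countable_iff_lt_aleph_one]
  exact Cardinal.mk_Iio_toType_ord_lt γ

/-- one step of the construction (finite-to-one version, on closed initial segments) -/
theorem ci_step (g : W1 → W1 → ℕ) (γ : W1)
    (h1 : ∀ β, β < γ → ∀ m : ℕ, {x | x ≤ β ∧ g β x ≤ m}.Finite)
    (h2 : ∀ β, β < γ → ∀ β', β' < β → {x | x ≤ β' ∧ g β' x ≠ g β x}.Finite) :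
    ∃ f : W1 → ℕ, (∀ m : ℕ, {x | x ≤ γ ∧ f x ≤ m}.Finite) ∧
      ∀ β, β < γ → {x | x ≤ β ∧ g β x ≠ f x}.Finite := by
  classical
  by_cases hne : (Set.Iio γ).Nonempty
  · obtain ⟨b, hb⟩ := (ci_countable γ).exists_eq_range hne
    have hbγ : ∀ n, b n < γ := by
      intro n
      have : b n ∈ Set.range b := ⟨n, rfl⟩
      rw [← hb] at this
      exact this
    have hex : ∀ x, x < γ → ∃ n, x ≤ b n := by
      intro x hx
      have : x ∈ Set.range b := by rw [← hb]; exact hx
      obtain ⟨n, hn⟩ := this
      exact ⟨n, hn.ge⟩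
    have h2' : ∀ β, β < γ → ∀ β', β' < γ → {x | x ≤ β ∧ x ≤ β' ∧ g β x ≠ g β' x}.Finite := by
      intro β hβ β' hβ'
      rcases lt_trichotomy β β' with h | h | h
      · exact (h2 β' hβ' β h).subset (fun x hx => ⟨hx.1, hx.2.2⟩)
      · subst h
        convert Set.finite_empty
        ext x
        simp
      · exact (h2 β hβ β' h).subset (fun x hx => ⟨hx.2.1, hx.2.2.symm⟩)
    let N : W1 → ℕ := fun x => if h : ∃ n, x ≤ b n then Nat.find h else 0
    have hN : ∀ x, x < γ → x ≤ b (N x) := by
      intro x hx
      have h := hex x hx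
      have e : N x = Nat.find h := dif_pos h
      rw [e]
      exact Nat.find_spec h
    have hNle : ∀ x n, x ≤ b n → N x ≤ n := by
      intro x n hn
      have h : ∃ n, x ≤ b n := ⟨n, hn⟩
      have e : N x = Nat.find h := dif_pos h
      rw [e]
      exact Nat.find_le hn
    refine ⟨fun x => max (g (b (N x)) x) (N x), ?_, ?_⟩
    · intro m
      have hfin : (⋃ n ∈ Set.Iic m, {x | x ≤ b n ∧ g (b n) x ≤ m}).Finite :=
        (Set.finite_Iic m).biUnion (fun n _ => h1 (b n) (hbγ n) m)
      refine (hfin.union (Set.finite_singleton γ)).subset ?_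
      rintro x ⟨hx, hxm⟩
      rcases eq_or_lt_of_le hx with h | h
      · right; exact h
      · left
        rw [Set.mem_iUnion₂]
        exact ⟨N x, (le_max_right _ _).trans hxm, hN x h, (le_max_left _ _).trans hxm⟩
    · intro β hβ
      obtain ⟨k, hk⟩ : β ∈ Set.range b := by rw [← hb]; exact hβ
      have hfin : (⋃ n ∈ Set.Iic k, ({x | x ≤ b n ∧ g (b n) x ≤ n} ∪
          {x | x ≤ β ∧ x ≤ b n ∧ g β x ≠ g (b n) x})).Finite :=
        (Set.finite_Iic k).biUnion (fun n _ => (h1 (b n) (hbγ n) n).union (h2' β hβ (b n) (hbγ n)))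
      refine hfin.subset ?_
      rintro x ⟨hx, hne'⟩
      have hxγ : x < γ := lt_of_le_of_lt hx hβ
      rw [Set.mem_iUnion₂]
      refine ⟨N x, hNle x k (by rw [hk]; exact hx), ?_⟩
      by_cases hc : g (b (N x)) x ≤ N x
      · left; exact ⟨hN x hxγ, hc⟩
      · right
        refine ⟨hx, hN x hxγ, ?_⟩
        intro he
        apply hne'
        show g β x = max (g (b (N x)) x) (N x)
        rw [max_eq_left (by omega), he]
  · refine ⟨fun _ => 0, ?_, ?_⟩
    · intro m
      refine (Set.finite_singleton γ).subset ?_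
      rintro x ⟨hx, _⟩
      rcases eq_or_lt_of_le hx with h | h
      · exact h
      · exact absurd ⟨x, h⟩ hne
    · intro β hβ
      exact absurd ⟨β, hβ⟩ hne

/-- a coherent family of finite-to-one functions -/
theorem ci_finite_to_one : ∃ g : W1 → W1 → ℕ, (∀ γ, ∀ m : ℕ, {x | x ≤ γ ∧ g γ x ≤ m}.Finite) ∧
    ∀ γ β, β < γ → {x | x ≤ β ∧ g β x ≠ g γ x}.Finite := by
  classical
  let G : (γ : W1) → ((β : W1) → β < γ → (W1 → ℕ)) → (W1 → ℕ) := fun γ rec =>
    if h : ∃ f : W1 → ℕ, (∀ m : ℕ, {x | x ≤ γ ∧ f x ≤ m}.Finite) ∧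
      ∀ β (hβ : β < γ), {x | x ≤ β ∧ rec β hβ x ≠ f x}.Finite then Classical.choose h else fun _ => 0
  let g : W1 → W1 → ℕ := WellFounded.fix wellFounded_lt G
  have hg : ∀ γ, g γ = G γ (fun β _ => g β) := fun γ => WellFounded.fix_eq _ _ _
  have key : ∀ γ, (∀ m : ℕ, {x | x ≤ γ ∧ g γ x ≤ m}.Finite) ∧
      ∀ β, β < γ → {x | x ≤ β ∧ g β x ≠ g γ x}.Finite := by
    intro γ
    induction γ using WellFoundedLT.induction with
    | ind γ ih =>
      have h : ∃ f : W1 → ℕ, (∀ m : ℕ, {x | x ≤ γ ∧ f x ≤ m}.Finite) ∧
          ∀ β (_ : β < γ), {x | x ≤ β ∧ g β x ≠ f x}.Finite :=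
        ci_step g γ (fun β hβ => (ih β hβ).1) (fun β hβ => (ih β hβ).2)
      have e : g γ = Classical.choose h := by
        rw [hg γ]
        exact dif_pos h
      rw [e]
      exact Classical.choose_spec h
  exact ⟨g, fun γ => (key γ).1, fun γ => (key γ).2⟩

/-- Hint. `Set.Iio γ` is countable for `γ : W1` (`Cardinal.mk_Iio_toType_ord_lt`).
Build by well-founded recursion `e γ` with: (a) `InjOn (e γ) (Iio γ)`, (b) the set of `n` that are not
values of `e γ` on `Iio γ` is infinite, (c) for `β < γ` the set `{x | x < β ∧ e β x ≠ e γ x}` is finite.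
Extension step: if `β < β'`, `t` is injective on `Iio β`, `t =* e β` on `Iio β`, `F` finite and
`t (Iio β)` misses `F`, then there is `t'` injective on `Iio β'` with `t' = t` on `Iio β`,
`t' =* e β'` on `Iio β'`, `t' (Iio β')` missing `F` and coinfinite (change `e β'` on `[β, β')` at the finitely
many `x` with `e β' x ∈ t (Iio β) ∪ F`).  At a limit `γ` take a strictly increasing cofinal sequence
`β n`, iterate the extension step, reserving one new number at each step so that the range of the union
stays coinfinite; at a successor add one unused number.  Finally the set in the conclusion is countable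
since all its members differ from `e α` (restricted to the countable set `Iio α`) at finitely many places. -/
theorem coherent_injections : ∃ e : W1 → W1 → ℕ, (∀ γ, Set.InjOn (e γ) (Set.Iio γ)) ∧
    ∀ α, Set.Countable {s : Set.Iio α → ℕ | ∃ γ, α ≤ γ ∧ ∀ x : Set.Iio α, s x = e γ x} := by
  classical
  obtain ⟨g, hg1, hg2⟩ := ci_finite_to_one
  let c : W1 → W1 → ℕ := fun γ x => Set.ncard {η | η < x ∧ g γ η = g γ x}
  have hfin : ∀ γ x, x ≤ γ → {η | η < x ∧ g γ η = g γ x}.Finite := by
    intro γ x hx
    exact (hg1 γ (g γ x)).subset (fun η hη => ⟨hη.1.le.trans hx, hη.2.le⟩)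
  let e : W1 → W1 → ℕ := fun γ x => Nat.pair (g γ x) (c γ x)
  have hlt : ∀ γ x y, x < y → y ≤ γ → g γ x = g γ y → c γ x < c γ y := by
    intro γ x y hxy hy hgxy
    apply Set.ncard_lt_ncard _ (hfin γ y hy)
    rw [Set.ssubset_iff_of_subset]
    · exact ⟨x, ⟨hxy, hgxy⟩, fun h => lt_irrefl _ h.1⟩
    · intro η hη
      exact ⟨hη.1.trans hxy, hη.2.trans hgxy⟩
  refine ⟨e, ?_, ?_⟩
  · intro γ x hx y hy hxy
    have h1 : Nat.pair (g γ x) (c γ x) = Nat.pair (g γ y) (c γ y) := hxy
    rw [Nat.pair_eq_pair] at h1
    obtain ⟨h2, h3⟩ := h1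
    rcases lt_trichotomy x y with h | h | h
    · have := hlt γ x y h (le_of_lt hy) h2
      omega
    · exact h
    · have := hlt γ y x h (le_of_lt hx) h2.symm
      omega
  · intro α
    -- coherence of `e`
    have hcoh : ∀ γ, α ≤ γ → {x | x < α ∧ e γ x ≠ e α x}.Finite := by
      intro γ hγ
      rcases eq_or_lt_of_le hγ with h | h
      · subst h
        convert Set.finite_empty
        ext x
        simp
      · have hD := hg2 γ α h
        set D := {x | x ≤ α ∧ g α x ≠ g γ x} with hDdef
        have hV : (g α '' D ∪ g γ '' D).Finite := (hD.image _).union (hD.image _)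
        obtain ⟨M, hM⟩ := hV.bddAbove
        refine (hD.union (hg1 α M)).subset ?_
        rintro x ⟨hx, hne⟩
        by_cases hxD : x ∈ D
        · left; exact hxD
        · right
          refine ⟨hx.le, ?_⟩
          by_contra hcon
          have hgx : g α x = g γ x := by
            by_contra h'
            exact hxD ⟨hx.le, h'⟩
          apply hne
          have hset : {η | η < x ∧ g γ η = g γ x} = {η | η < x ∧ g α η = g α x} := by
            ext η
            simp only [Set.mem_ofPred_eq]
            constructor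
            · rintro ⟨h1, h2⟩
              refine ⟨h1, ?_⟩
              by_contra h3
              have hηD : η ∈ D := by
                refine ⟨(h1.trans hx).le, ?_⟩
                intro h4
                apply h3
                rw [h4, h2, hgx]
              have h5 := hM (Or.inr ⟨η, hηD, rfl⟩)
              apply hcon
              rw [hgx, ← h2]
              exact h5
            · rintro ⟨h1, h2⟩
              refine ⟨h1, ?_⟩
              by_contra h3
              have hηD : η ∈ D := by
                refine ⟨(h1.trans hx).le, ?_⟩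
                intro h4
                apply h3
                rw [← h4, h2, hgx]
              have h5 := hM (Or.inl ⟨η, hηD, rfl⟩)
              apply hcon
              rw [← h2]
              exact h5
          show Nat.pair (g γ x) (Set.ncard {η | η < x ∧ g γ η = g γ x}) =
            Nat.pair (g α x) (Set.ncard {η | η < x ∧ g α η = g α x})
          rw [hset, hgx]
    -- countability
    have hc : Countable (Set.Iio α) := (ci_countable α).to_subtype
    let Φ : (Set.Iio α →₀ ℤ) → (Set.Iio α → ℕ) := fun d x => ((e α x : ℤ) + d x).toNat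
    refine (Set.countable_range Φ).mono ?_
    rintro s ⟨γ, hγ, hs⟩
    have hsf : (Function.support (fun x : Set.Iio α => (s x : ℤ) - (e α x : ℤ))).Finite := by
      have h1 := (hcoh γ hγ).preimage (Subtype.val_injective (p := fun x => x ∈ Set.Iio α)).injOn
      refine h1.subset ?_
      intro x hx
      refine ⟨x.2, ?_⟩
      intro h2
      apply hx
      show (s x : ℤ) - (e α x : ℤ) = 0
      rw [hs x, h2, sub_self]
    refine ⟨Finsupp.ofSupportFinite _ hsf, ?_⟩
    funext x
    show ((e α x : ℤ) + ((s x : ℤ) - (e α x : ℤ))).toNat = s x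
    have : (e α x : ℤ) + ((s x : ℤ) - (e α x : ℤ)) = (s x : ℤ) := by ring
    rw [this]
    exact Int.toNat_natCast _

end Pool.Agent.Helper425.FA
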