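import Mathlib
import Pool.Agent.Helper425.FA.Coh

set_option autoImplicit false


open Set Topology Filter

namespace Pool.Agent.Helper425.FA







theorem ol_Iio (α : W1) : (Set.Iio α).Countable := by
  rw [Cardinal.countable_iff_lt_aleph_one]
  exact Cardinal.mk_Iio_ord_toType α

theorem ol_unc : ¬ (Set.univ : Set W1).Countable := by
  rw [Cardinal.countable_iff_lt_aleph_one, Cardinal.mk_univ, Cardinal.mk_ord_toType]
  exact lt_irrefl _

theorem ol_Iic (α : W1) : (Set.Iic α).Countable := by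
  rw [← Set.Iio_insert]
  exact (ol_Iio α).insert α

theorem ol_rec {Stg : Type} (d : Stg) (Q : W1 → (W1 → Stg) → Prop)
    (hdep : ∀ α f g, (∀ β ≤ α, f β = g β) → Q α f → Q α g)
    (hstep : ∀ α f, (∀ β < α, Q β f) → ∃ s, Q α (Function.update f α s)) :
    ∃ f, ∀ α, Q α f := by
  classical
  have wf : WellFounded ((· < ·) : W1 → W1 → Prop) := wellFounded_lt
  let body : (α : W1) → ((β : W1) → β < α → Stg) → Stg := fun α ih =>
    if h : ∃ s, Q α (Function.update (fun β => if hβ : β < α then ih β hβ else d) α s)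
    then h.choose else d
  let F : W1 → Stg := wf.fix body
  have hF : ∀ α, F α = body α (fun β _ => F β) := fun α => wf.fix_eq body α
  refine ⟨F, ?_⟩
  intro α
  induction α using wf.induction with
  | _ α ih =>
    let f : W1 → Stg := fun β => if hβ : β < α then F β else d
    have hf : ∀ β < α, Q β f := fun β hβ => hdep β F f (fun β' hβ' => by
      simp [f, lt_of_le_of_lt hβ' hβ]) (ih β hβ)
    have hex : ∃ s, Q α (Function.update f α s) := hstep α f hf
    have hFα : F α = hex.choose := by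
      rw [hF]
      exact dif_pos hex
    refine hdep α (Function.update f α hex.choose) F ?_ hex.choose_spec
    intro β hβ
    rcases hβ.lt_or_eq with h | h
    · rw [Function.update_of_ne h.ne]
      simp [f, h]
    · rw [h, Function.update_self, hFα]

/-- cofinal monotone sequence -/
theorem ol_seq (α : W1) (hne : (Set.Iio α).Nonempty) :
    ∃ b : ℕ → W1, Monotone b ∧ (∀ n, b n < α) ∧ ∀ β < α, ∃ n, β ≤ b n := by
  obtain ⟨u, hu⟩ := (ol_Iio α).exists_eq_range hne
  refine ⟨fun n => partialSups u n, (partialSups u).monotone, ?_, ?_⟩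
  · intro n
    have hun : ∀ n, u n < α := fun n => by
      have : u n ∈ Set.range u := ⟨n, rfl⟩
      rw [← hu] at this
      exact this
    induction n with
    | zero => simpa using hun 0
    | succ n ih =>
      show partialSups u (n + 1) < α
      rw [partialSups_add_one]
      exact max_lt ih (hun _)
  · intro β hβ
    have : β ∈ Set.range u := by rw [← hu]; exact hβ
    obtain ⟨n, rfl⟩ := this
    exact ⟨n, le_partialSups u n⟩

/-- closure under countably many countable-valued operations -/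
theorem ol_closure {X ι : Type} (B : Set X) (hB : B.Countable) (Z : Set ι) (hZ : Z.Countable)
    (T : ι → X → Set X) (hT : ∀ f x, (T f x).Countable) :
    ∃ A : Set X, A.Countable ∧ B ⊆ A ∧ ∀ z ∈ Z, ∀ x ∈ A, T z x ⊆ A := by
  let step : Set X → Set X := fun U => U ∪ ⋃ x ∈ U, ⋃ z ∈ Z, T z x
  let seq : ℕ → Set X := fun n => step^[n] B
  have hs : ∀ n, seq (n + 1) = step (seq n) := fun n => Function.iterate_succ_apply' _ _ _
  refine ⟨⋃ n, seq n, ?_, ?_, ?_⟩
  · refine Set.countable_iUnion fun n => ?_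
    induction n with
    | zero => exact hB
    | succ n ih =>
      rw [hs]
      exact ih.union (ih.biUnion fun x _ => hZ.biUnion fun z _ => hT z x)
  · exact Set.subset_iUnion seq 0
  · intro z hz x hx y hy
    obtain ⟨n, hn⟩ := Set.mem_iUnion.1 hx
    refine Set.mem_iUnion.2 ⟨n + 1, ?_⟩
    rw [hs]
    refine Or.inr ?_
    simp only [Set.mem_iUnion]
    exact ⟨x, hn, z, hz, hy⟩

/-- good stage -/
structure OLQ {X C : Type} [TopologicalSpace C] (ev : C → X → ℝ) (Φ : Set C)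
    (A0 : Set X) (S : C → X → Set X) (e : W1 → W1 → ℕ) (α : W1)
    (f : W1 → Set X × (W1 → C)) : Prop where
  cnt : (f α).1.Countable
  base : A0 ⊆ (f α).1
  mono : ∀ β < α, (f β).1 ⊆ (f α).1
  memΦ : ∀ γ, α < γ → (f α).2 γ ∈ Φ
  agr : ∀ γ γ', α < γ → α < γ' → (∀ β ≤ α, e γ β = e γ' β) → (f α).2 γ = (f α).2 γ'
  coh : ∀ γ, α < γ → ∀ β < α, ∀ x ∈ (f β).1, ev ((f α).2 γ) x = ev ((f β).2 γ) x
  clo : ∀ γ, α < γ → ∀ x ∈ (f α).1, S ((f α).2 γ) x ⊆ (f α).1
  cov : ∃ G : ℕ → Set C, (∀ i, IsOpen (G i)) ∧ (Φ ⊆ ⋃ i, G i) ∧ ∀ γ, α < γ → ∀ g ∈ Φ,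
    (∀ x ∈ (f α).1, ev g x = ev ((f α).2 γ) x) → ∀ i', i' ≠ e γ α → g ∉ G i'

theorem ol_dep {X C : Type} [TopologicalSpace C] (ev : C → X → ℝ) (Φ : Set C)
    (A0 : Set X) (S : C → X → Set X) (e : W1 → W1 → ℕ) (α : W1)
    (f g : W1 → Set X × (W1 → C)) (h : ∀ β ≤ α, f β = g β) (hf : OLQ ev Φ A0 S e α f) :
    OLQ ev Φ A0 S e α g := by
  have h1 := h α le_rfl
  have h2 : ∀ β, β < α → f β = g β := fun β hβ => h β hβ.le
  obtain ⟨c1, c2, c3, c4, c5, c6, c7, c8⟩ := hf
  refine ⟨?_, ?_, ?_, ?_, ?_, ?_, ?_, ?_⟩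
  · rw [← h1]; exact c1
  · rw [← h1]; exact c2
  · intro β hβ; rw [← h1, ← h2 β hβ]; exact c3 β hβ
  · rw [← h1]; exact c4
  · rw [← h1]; exact c5
  · intro γ hγ β hβ; rw [← h1, ← h2 β hβ]; exact c6 γ hγ β hβ
  · rw [← h1]; exact c7
  · rw [← h1]; exact c8

/-- limits -/
theorem ol_lim {X C : Type} [TopologicalSpace C] (ev : C → X → ℝ) (Φ : Set C)
    (hne : Φ.Nonempty) (A0 : Set X) (S : C → X → Set X) (e : W1 → W1 → ℕ)
    (hLim : ∀ (A : ℕ → Set X) (z : ℕ → C), Monotone A → (∀ n, A0 ⊆ A n) → (∀ n, z n ∈ Φ) →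
      (∀ n, ∀ x ∈ A n, S (z n) x ⊆ A n) →
      (∀ n m, n ≤ m → ∀ x ∈ A n, ev (z m) x = ev (z n) x) →
      ∃ h ∈ Φ, ∀ n, ∀ x ∈ A n, ev h x = ev (z n) x)
    (f : W1 → Set X × (W1 → C)) (δ γ : W1) (hδ : δ ≤ γ)
    (hQ : ∀ β < δ, OLQ ev Φ A0 S e β f) :
    ∃ h ∈ Φ, ∀ β < δ, ∀ x ∈ (f β).1, ev h x = ev ((f β).2 γ) x := by
  by_cases hne' : (Set.Iio δ).Nonempty
  · obtain ⟨b, hb1, hb2, hb3⟩ := ol_seq δ hne'
    have hm : ∀ β β', β ≤ β' → β' < δ → (f β).1 ⊆ (f β').1 := by
      intro β β' h1 h2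
      rcases h1.lt_or_eq with h | h
      · exact (hQ β' h2).mono β h
      · rw [h]
    have hc : ∀ β β', β ≤ β' → β' < δ → ∀ x ∈ (f β).1, ev ((f β').2 γ) x = ev ((f β).2 γ) x := by
      intro β β' h1 h2 x hx
      rcases h1.lt_or_eq with h | h
      · exact (hQ β' h2).coh γ (h2.trans_le hδ) β h x hx
      · rw [h]
    obtain ⟨h, hh1, hh2⟩ := hLim (fun n => (f (b n)).1) (fun n => (f (b n)).2 γ)
      (fun n m hnm => hm _ _ (hb1 hnm) (hb2 m)) (fun n => (hQ _ (hb2 n)).base)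
      (fun n => (hQ _ (hb2 n)).memΦ γ ((hb2 n).trans_le hδ))
      (fun n => (hQ _ (hb2 n)).clo γ ((hb2 n).trans_le hδ))
      (fun n m hnm => hc _ _ (hb1 hnm) (hb2 m))
    refine ⟨h, hh1, ?_⟩
    intro β hβ x hx
    obtain ⟨n, hn⟩ := hb3 β hβ
    rw [hh2 n x (hm β (b n) hn (hb2 n) hx)]
    exact hc β (b n) hn (hb2 n) x hx
  · obtain ⟨h, hh⟩ := hne
    refine ⟨h, hh, fun β hβ => ?_⟩
    exact absurd ⟨β, hβ⟩ hne'

/-- TARGET: prove this.
Proof. Let `e` be from `coherent_injections`; `W1` is a well order, all `Iio α` countable, `W1` uncountable.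
(1) General choice principle: by well-founded recursion (`WellFounded.fix` with `if h : ∃ d, .. then h.choose else ..`)
from `for each `α` and each family of good stages `s β` (`β < α`) there is a good stage `s α`` get a good family.
(2) Stage `α` is a pair `(Aα : Set X, zα : (W1 → ℕ) → C)` such that: `Aα` countable, `A0 ⊆ Aα`, `Aβ ⊆ Aα` for `β<α`;
`zα j ∈ Φ` for all `j`; `ev (zα j) = ev (zβ j)` on `Aβ` for `β < α` PROVIDED `j` agrees on `Iio γ`-part with some `e γ`, it is enough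
to have this for `j = e γ`, `γ > α`; `zα j` only depends on `j` restricted to `Iic α` (`zα j = zα j'` if `j β = j' β` for `β ≤ α`);
`S (zα (e γ)) x ⊆ Aα` for `x ∈ Aα`, `γ > α`;
with `G, Q` given by `hStep` for the countable set `A' = A0 ∪ ⋃_{β<α} Aβ`: `Q ⊆ Aα` and every `f ∈ Φ` with `ev f = ev (zα (e γ))` on `Q`
is not in `G i'` for `i' ≠ e γ α`.
Construction of stage `α`: take a monotone cofinal sequence `β n` in the countable set `Iio α`
(if nonempty), apply `hLim` to `A_{β n}`, `z_{β n}(j)` to get `h(j) ∈ Φ` with `h(j) = zβ(j)` on `Aβ` for all `β<α`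
(choose `h` as function of `j` truncated to `Iio α`, so that it depends only on `j` on `Iio α`; for `Iio α` empty take a fixed element of `Φ`);
`zα(j)` := the `z'` of `hStep` for `z = h(j)`, `i = j α` (again after truncation of `j` to `Iic α`); `Aα` := closure of
`A' ∪ Q` under `S (zα (e γ)) ·`, `γ > α`: countable, because there are only countably many restrictions of `e γ`, `γ > α`, to `Iic α`
(a countable set of restrictions to `Iio α` by `coherent_injections`, times the value at `α`).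
(3) For each `γ : W1` apply `hLim` once more to get `f γ ∈ Φ` with `f γ = zα (e γ)` on `Aα` for all `α < γ`.
Since `G^α` covers `Φ`, `f γ ∈ G^α_{e γ α}` only (for `α<γ`).
(4) By `hL` there is `f ∈ Φ` such that every open `U ∋ f` contains `f γ` for uncountably many `γ` (otherwise countably many
open sets cover `Φ`, each containing only countably many `f γ`, so `W1` would be countable). For each `α` pick `r α` with `f ∈ G^α_{r α}`.
`r : W1 → ℕ` is not injective: `α < β`, `r α = r β = n`. Then `f γ ∈ G^α_n ∩ G^β_n` for some `γ > β`, so `e γ α = n = e γ β`,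
contradicting injectivity of `e γ` on `Iio γ`. -/
theorem omega_lemma {X C : Type} [TopologicalSpace C] (ev : C → X → ℝ) (Φ : Set C)
    (hL : IsLindelof Φ) (hne : Φ.Nonempty) (A0 : Set X) (hA0 : A0.Countable)
    (S : C → X → Set X) (hS : ∀ f x, (S f x).Countable)
    (hLim : ∀ (A : ℕ → Set X) (z : ℕ → C), Monotone A → (∀ n, A0 ⊆ A n) → (∀ n, z n ∈ Φ) →
      (∀ n, ∀ x ∈ A n, S (z n) x ⊆ A n) →
      (∀ n m, n ≤ m → ∀ x ∈ A n, ev (z m) x = ev (z n) x) →
      ∃ h ∈ Φ, ∀ n, ∀ x ∈ A n, ev h x = ev (z n) x)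
    (hStep : ∀ A : Set X, A.Countable → A0 ⊆ A → ∃ G : ℕ → Set C, (∀ i, IsOpen (G i)) ∧
      (Φ ⊆ ⋃ i, G i) ∧ ∃ Q : Set X, Q.Countable ∧ ∀ z ∈ Φ, ∀ i, ∃ z' ∈ Φ,
        (∀ x ∈ A, ev z' x = ev z x) ∧
        ∀ f ∈ Φ, (∀ x ∈ Q, ev f x = ev z' x) → ∀ i', i' ≠ i → f ∉ G i') : False := by
  classical
  obtain ⟨e, he1, he2⟩ := coherent_injections
  obtain ⟨c0, hc0⟩ := hne
  obtain ⟨f, hf⟩ := ol_rec ((∅, fun _ => c0) : Set X × (W1 → C)) (OLQ ev Φ A0 S e)
    (fun α f g h hf => ol_dep ev Φ A0 S e α f g h hf) (by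
      intro α f hf
      haveI : Nonempty W1 := ⟨α⟩
      have hA' : (A0 ∪ ⋃ β ∈ Set.Iio α, (f β).1).Countable :=
        hA0.union ((ol_Iio α).biUnion fun β hβ => (hf β hβ).cnt)
      obtain ⟨G, hG1, hG2, Q, hQ, hz⟩ := hStep _ hA' Set.subset_union_left
      have hy : ∀ γ, ∃ y, α < γ → y ∈ Φ ∧
          (∀ β < α, ∀ x ∈ (f β).1, ev y x = ev ((f β).2 γ) x) ∧
          (∀ g ∈ Φ, (∀ x ∈ Q, ev g x = ev y x) → ∀ i', i' ≠ e γ α → g ∉ G i') := by
        intro γ
        by_cases hγ : α < γ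
        · obtain ⟨h, hh1, hh2⟩ := ol_lim ev Φ ⟨c0, hc0⟩ A0 S e hLim f α γ hγ.le hf
          obtain ⟨z', hz1, hz2, hz3⟩ := hz h hh1 (e γ α)
          refine ⟨z', fun _ => ⟨hz1, ?_, hz3⟩⟩
          intro β hβ x hx
          rw [hz2 x (Or.inr (Set.mem_biUnion hβ hx))]
          exact hh2 β hβ x hx
        · exact ⟨c0, fun h => absurd h hγ⟩
      choose y hy using hy
      let F : W1 → (Set.Iio α → ℕ) × ℕ := fun γ => (fun x => e γ x, e γ α)
      have hFc : (F '' Set.Ioi α).Countable := by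
        refine Set.Countable.mono ?_ ((he2 α).prod (Set.countable_univ (α := ℕ)))
        rintro _ ⟨γ, hγ, rfl⟩
        exact ⟨⟨γ, le_of_lt hγ, fun x => rfl⟩, trivial⟩
      have hFa : ∀ γ γ', F γ = F γ' ↔ ∀ β ≤ α, e γ β = e γ' β := by
        intro γ γ'
        constructor
        · intro h β hβ
          rcases hβ.lt_or_eq with h1 | h1
          · exact congrFun (congrArg Prod.fst h) ⟨β, h1⟩
          · rw [h1]; exact congrArg Prod.snd h
        · intro h
          refine Prod.ext (funext fun x => h x (le_of_lt x.2)) (h α le_rfl)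
      let rep : W1 → W1 := fun γ => Function.invFunOn F (Set.Ioi α) (F γ)
      have hr1 : ∀ γ, α < γ → α < rep γ := fun γ hγ =>
        Function.invFunOn_mem (f := F) (s := Set.Ioi α) ⟨γ, hγ, rfl⟩
      have hr2 : ∀ γ, α < γ → F (rep γ) = F γ := fun γ hγ =>
        Function.invFunOn_eq (f := F) (s := Set.Ioi α) ⟨γ, hγ, rfl⟩
      have hr3 : ∀ γ, α < γ → ∀ β ≤ α, e (rep γ) β = e γ β := fun γ hγ =>
        (hFa _ _).1 (hr2 γ hγ)
      have hZ : ((fun γ => y (rep γ)) '' Set.Ioi α).Countable := by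
        have : (fun γ => y (rep γ)) '' Set.Ioi α =
            (fun p => y (Function.invFunOn F (Set.Ioi α) p)) '' (F '' Set.Ioi α) := by
          rw [Set.image_image]
        rw [this]
        exact hFc.image _
      obtain ⟨A, hA1, hA2, hA3⟩ := ol_closure _ (hA'.union hQ) _ hZ S hS
      refine ⟨(A, fun γ => y (rep γ)), ?_⟩
      have hup : ∀ β, β < α → Function.update f α (A, fun γ => y (rep γ)) β = f β :=
        fun β hβ => Function.update_of_ne hβ.ne _ _
      have hse : Function.update f α (A, fun γ => y (rep γ)) α = (A, fun γ => y (rep γ)) :=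
        Function.update_self _ _ _
      refine ⟨?_, ?_, ?_, ?_, ?_, ?_, ?_, ?_⟩
      · rw [hse]; exact hA1
      · rw [hse]; exact fun x hx => hA2 (Or.inl (Or.inl hx))
      · intro β hβ
        rw [hse, hup β hβ]
        exact fun x hx => hA2 (Or.inl (Or.inr (Set.mem_biUnion hβ hx)))
      · intro γ hγ
        rw [hse]
        exact (hy (rep γ) (hr1 γ hγ)).1
      · intro γ γ' _ _ h
        rw [hse]
        have := (hFa γ γ').2 h
        simp only [rep, this]
      · intro γ hγ β hβ x hx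
        rw [hup β hβ] at hx ⊢
        rw [hse]
        show ev (y (rep γ)) x = _
        rw [(hy (rep γ) (hr1 γ hγ)).2.1 β hβ x hx]
        have h3 := (hf β hβ).agr (rep γ) γ (hβ.trans (hr1 γ hγ)) (hβ.trans hγ)
          (fun β' hβ' => hr3 γ hγ β' (hβ'.trans hβ.le))
        rw [h3]
      · intro γ hγ x hx
        rw [hse] at hx ⊢
        exact hA3 _ ⟨γ, hγ, rfl⟩ x hx
      · refine ⟨G, hG1, hG2, ?_⟩
        intro γ hγ g hg hgx i' hi'
        rw [hse] at hgx
        have h4 : e (rep γ) α = e γ α := hr3 γ hγ α le_rfl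
        refine (hy (rep γ) (hr1 γ hγ)).2.2 g hg (fun x hx => ?_) i' (by rw [h4]; exact hi')
        exact hgx x (hA2 (Or.inr hx)))
  have hlim : ∀ γ, ∃ h ∈ Φ, ∀ β < γ, ∀ x ∈ (f β).1, ev h x = ev ((f β).2 γ) x := fun γ =>
    ol_lim ev Φ ⟨c0, hc0⟩ A0 S e hLim f γ γ le_rfl (fun β _ => hf β)
  choose φ hφ1 hφ2 using hlim
  choose G hG1 hG2 hG3 using fun α => (hf α).cov
  have hkey : ∀ α γ n, α < γ → φ γ ∈ G α n → n = e γ α := by
    intro α γ n hαγ hmem
    by_contra hne
    exact hG3 α γ hαγ (φ γ) (hφ1 γ) (fun x hx => hφ2 γ α hαγ x hx) n hne hmem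
  -- complete accumulation point
  have hacc : ∃ p ∈ Φ, ∀ U : Set C, IsOpen U → p ∈ U → ¬ {γ | φ γ ∈ U}.Countable := by
    by_contra hcon
    push Not at hcon
    have h1 : {γ | φ γ ∈ Φ}.Countable := by
      refine hL.induction_on (p := fun s => {γ | φ γ ∈ s}.Countable) ?_ ?_ ?_
      · intro s t hst ht
        exact ht.mono fun γ hγ => hst hγ
      · intro T hT hTc
        have : {γ | φ γ ∈ ⋃₀ T} = ⋃ s ∈ T, {γ | φ γ ∈ s} := by
          ext γ; simp
        rw [this]
        exact hT.biUnion hTc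
      · intro x hx
        obtain ⟨U, hU1, hU2, hU3⟩ := hcon x hx
        exact ⟨U, mem_nhdsWithin_of_mem_nhds (hU1.mem_nhds hU2), hU3⟩
    apply ol_unc
    refine h1.mono fun γ _ => hφ1 γ
  obtain ⟨p, hp, hpU⟩ := hacc
  have hr : ∀ α, ∃ n, p ∈ G α n := fun α => Set.mem_iUnion.1 (hG2 α hp)
  choose r hr using hr
  have hninj : ¬ Function.Injective r := by
    intro hinj
    apply ol_unc
    exact Set.countable_univ_iff.2 hinj.countable
  have hex : ∃ α β, α < β ∧ r α = r β := by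
    rw [Function.Injective] at hninj
    push Not at hninj
    obtain ⟨α, β, h1, h2⟩ := hninj
    rcases lt_or_gt_of_ne h2 with h | h
    · exact ⟨α, β, h, h1⟩
    · exact ⟨β, α, h, h1.symm⟩
  obtain ⟨α, β, hαβ, hrr⟩ := hex
  have hU := hpU (G α (r α) ∩ G β (r β)) ((hG1 α _).inter (hG1 β _)) ⟨hr α, hr β⟩
  have : ∃ γ, β < γ ∧ φ γ ∈ G α (r α) ∩ G β (r β) := by
    by_contra hcon
    push Not at hcon
    apply hU
    refine (ol_Iic β).mono fun γ hγ => ?_
    by_contra hlt
    exact hcon γ (not_le.1 hlt) hγ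
  obtain ⟨γ, hγ, hm1, hm2⟩ := this
  have e1 := hkey α γ _ (hαβ.trans hγ) hm1
  have e2 := hkey β γ _ hγ hm2
  have e3 : e γ α = e γ β := by rw [← e1, ← e2, hrr]
  exact hαβ.ne (he1 γ (hαβ.trans hγ) hγ e3)


end Pool.Agent.Helper425.FA
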