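import Mathlib
import Pool.Agent.Helper425.FA.Omega

set_option autoImplicit false


open Set Topology Filter

namespace Pool.Agent.Helper425.FA







/-- TARGET: prove this.
Proof by contradiction using `omega_lemma` with `C = Cp X`, `ev f x = f.1 x`, `Φ = {f | ∀ x ∈ A, f x = z x}` (closed, so Lindelöf; contained in
`F`), `A0 = A`. `hLim` is immediate. `hStep`: for countable `A' ⊇ A`, which is not dense, pick `p ∉ closure A'`; `G i = {f | |(|f p| - i)| < 2/3}` (open, they
cover everything: take `i` the nearest natural number to `|f p|`), `Q = {p}`; for `z1 ∈ Φ` and `i` take `v` continuous, `v p = 1`, `v = 0` on `closure A'`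
and `z' = z1 + (i - z1 p) v`; then `z' p = i` and `f p = z' p = i` excludes `f ∈ G i'` for `i' ≠ i`. -/
theorem caseI (X : Type) [TopologicalSpace X] [T35Space X] [LindelofSpace (Cp X)]
    (S : Cp X → X → Set X) (hS : ∀ f x, (S f x).Countable) (F : Set (Cp X))
    (hLim : ∀ (A : ℕ → Set X) (z : ℕ → Cp X), Monotone A → (∀ n, z n ∈ F) →
      (∀ n, ∀ x ∈ A n, S (z n) x ⊆ A n) →
      (∀ n m, n ≤ m → ∀ x ∈ A n, (z m).1 x = (z n).1 x) →
      ∃ h : Cp X, h ∈ F ∧ ∀ n, ∀ x ∈ A n, h.1 x = (z n).1 x)
    (A : Set X) (hA : A.Countable) (z : Cp X) (h : ∀ f : Cp X, (∀ x ∈ A, f.1 x = z.1 x) → f ∈ F) :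
    ∃ A' : Set X, A'.Countable ∧ Dense A' := by
  by_contra hcon
  push Not at hcon
  have hcont : ∀ x : X, Continuous (fun f : Cp X => f.1 x) := fun x =>
    (continuous_apply x).comp continuous_subtype_val
  have hcl : IsClosed {f : Cp X | ∀ x ∈ A, f.1 x = z.1 x} := by
    have : {f : Cp X | ∀ x ∈ A, f.1 x = z.1 x} = ⋂ x ∈ A, {f : Cp X | f.1 x = z.1 x} := by
      ext f; simp
    rw [this]
    exact isClosed_biInter fun x _ => isClosed_eq (hcont x) continuous_const
  refine omega_lemma (X := X) (C := Cp X) (fun f x => f.1 x) {f : Cp X | ∀ x ∈ A, f.1 x = z.1 x}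
    hcl.isLindelof ⟨z, fun _ _ => rfl⟩ A hA S hS ?_ ?_
  · intro B w hmono hA0 hw hSB heq
    obtain ⟨g, _, hg2⟩ := hLim B w hmono (fun n => h (w n) (hw n)) hSB heq
    refine ⟨g, ?_, hg2⟩
    intro x hx
    rw [hg2 0 x (hA0 0 hx)]
    exact hw 0 x hx
  · intro B hB hAB
    have hnd := hcon B hB
    obtain ⟨p, hp⟩ : ∃ p, p ∉ closure B := by
      by_contra hh
      push Not at hh
      exact hnd hh
    refine ⟨fun i => {f : Cp X | |(|f.1 p| - (i:ℝ))| < 2/3}, ?_, ?_, {p}, Set.countable_singleton p, ?_⟩
    · intro i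
      exact isOpen_lt (((hcont p).abs.sub continuous_const).abs) continuous_const
    · intro f _
      rw [Set.mem_iUnion]
      refine ⟨⌊|f.1 p| + 1/2⌋₊, ?_⟩
      show |(|f.1 p| - ((⌊|f.1 p| + 1/2⌋₊ : ℕ):ℝ))| < 2/3
      have h1 := Nat.floor_le (show 0 ≤ |f.1 p| + 1/2 by positivity)
      have h2 := Nat.lt_floor_add_one (|f.1 p| + 1/2)
      rw [abs_lt]
      constructor <;> linarith
    · intro z1 hz1 i
      obtain ⟨v, hv, hvp, hvB⟩ := CompletelyRegularSpace.completely_regular p (closure B) isClosed_closure hp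
      refine ⟨⟨fun x => z1.1 x + ((i:ℝ) - z1.1 p) * (1 - (v x : ℝ)), ?_⟩, ?_, ?_, ?_⟩
      · exact z1.2.add (continuous_const.mul (continuous_const.sub (continuous_subtype_val.comp hv)))
      · intro x hx
        have : v x = 1 := hvB (subset_closure (hAB hx))
        simp only [this]
        have := hz1 x hx
        simp [this]
      · intro x hx
        have : v x = 1 := hvB (subset_closure hx)
        simp [this]
      · intro f _ hf i' hi' hfi
        have h1 : f.1 p = i := by
          have := hf p rfl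
          simp only [hvp] at this
          rw [this]
          simp
        have h2 : |(|f.1 p| - (i':ℝ))| < 2/3 := hfi
        rw [h1, Nat.abs_cast] at h2
        have h3 : (1:ℝ) ≤ |(i:ℝ) - i'| := by
          have : (i:ℤ) - i' ≠ 0 := by
            intro h0
            apply hi'
            omega
          have h4 := Int.one_le_abs this
          exact_mod_cast h4
        linarith


end Pool.Agent.Helper425.FA
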