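import Mathlib
import Pool.Agent.Helper425.FA.Basic

set_option autoImplicit false


open Set Topology Filter

namespace Pool.Agent.Helper425.FA





/-- TARGET: prove this.
Proof. Let `U = ⋃ n, closure (A n)`, open because of `hint`. `Z m = Z n` on `A n` for `m ≥ n` (`hZ` and `hmono`), hence on `closure (A n)`.
Define `h x = Z n x` if `x ∈ closure (A n)` (say for the least such `n`, `Nat.find`), `h x = 0` if `x ∉ U`. Continuity: near a point of `U` (in
`interior (closure (A n))` for some `n`) `h = Z n`; at `p ∉ closure (⋃ A n)`, `h = 0` near `p`; at `p ∈ closure (⋃ A n)`, `p ∉ U`: `g p = 0`, given `ε ∈ (0,1)`,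
on the neighbourhood `{|g| < ε}` of `p` we have `|h| < ε`, because `min |Z n| 1 ≤ g` also holds on `closure (A n)`. -/
theorem glue_lemma (X : Type) [TopologicalSpace X] (A : ℕ → Set X) (hmono : Monotone A)
    (hint : ∀ n, closure (A n) ⊆ interior (closure (A (n+1)))) (Z : ℕ → Cp X)
    (hZ : ∀ n, ∀ x ∈ A n, (Z (n+1)).1 x = (Z n).1 x) (g : Cp X)
    (hg : ∀ n, ∀ x ∈ A n, min |(Z n).1 x| 1 ≤ g.1 x)
    (hg0 : ∀ p ∈ closure (⋃ n, A n), (∀ n, p ∉ closure (A n)) → g.1 p = 0) :
    ∃ h : Cp X, ∀ n, ∀ x ∈ A n, h.1 x = (Z n).1 x := by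
  classical
  have hZA : ∀ n m, n ≤ m → ∀ x ∈ A n, (Z m).1 x = (Z n).1 x := by
    intro n m hnm
    induction m, hnm using Nat.le_induction with
    | base => intro x _; rfl
    | succ m hnm ih =>
      intro x hx
      rw [hZ m x (hmono hnm hx), ih x hx]
  have hZc : ∀ n m, n ≤ m → ∀ x ∈ closure (A n), (Z m).1 x = (Z n).1 x := by
    intro n m hnm
    have hcl : IsClosed {x | (Z m).1 x = (Z n).1 x} := isClosed_eq (Z m).2 (Z n).2
    intro x hx
    exact closure_minimal (hZA n m hnm) hcl hx
  have hgc : ∀ n, ∀ x ∈ closure (A n), min |(Z n).1 x| 1 ≤ g.1 x := by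
    intro n x hx
    have hcl : IsClosed {x | min |(Z n).1 x| 1 ≤ g.1 x} :=
      isClosed_le (((Z n).2.abs).min continuous_const) g.2
    exact closure_minimal (hg n) hcl hx
  obtain ⟨h, hh⟩ : ∃ h : X → ℝ, ∀ x, h x =
      if hx : ∃ n, x ∈ closure (A n) then (Z (Nat.find hx)).1 x else 0 := ⟨_, fun _ => rfl⟩
  have h1 : ∀ n, ∀ x ∈ closure (A n), h x = (Z n).1 x := by
    intro n x hx
    have hex : ∃ n, x ∈ closure (A n) := ⟨n, hx⟩
    rw [hh, dif_pos hex]
    exact (hZc (Nat.find hex) n (Nat.find_min' hex hx) x (Nat.find_spec hex)).symm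
  have h2 : ∀ x, (∀ n, x ∉ closure (A n)) → h x = 0 := by
    intro x hx
    rw [hh, dif_neg]
    rintro ⟨n, hn⟩
    exact hx n hn
  have hcont : Continuous h := by
    rw [continuous_iff_continuousAt]
    intro p
    by_cases hp : ∃ n, p ∈ closure (A n)
    · obtain ⟨n, hn⟩ := hp
      have h3 : closure (A (n + 1)) ∈ 𝓝 p := mem_interior_iff_mem_nhds.1 (hint n hn)
      have h4 : (Z (n + 1)).1 =ᶠ[𝓝 p] h := by
        filter_upwards [h3] with x hx
        exact (h1 (n + 1) x hx).symm
      exact (Z (n + 1)).2.continuousAt.congr h4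
    · push Not at hp
      by_cases hp2 : p ∈ closure (⋃ n, A n)
      · have hg0p := hg0 p hp2 hp
        have hhp := h2 p hp
        rw [Metric.continuousAt_iff']
        intro ε hε
        have hε' : 0 < min ε 1 := lt_min hε one_pos
        have hgp : ContinuousAt g.1 p := g.2.continuousAt
        have h3 := Metric.continuousAt_iff'.1 hgp (min ε 1) hε'
        filter_upwards [h3] with x hx
        rw [hg0p, Real.dist_eq, sub_zero] at hx
        rw [hhp, Real.dist_eq, sub_zero]
        by_cases hxc : ∃ n, x ∈ closure (A n)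
        · obtain ⟨n, hn⟩ := hxc
          rw [h1 n x hn]
          have h5 := hgc n x hn
          have h6 : min |(Z n).1 x| 1 < min ε 1 :=
            lt_of_le_of_lt (h5.trans (le_abs_self _)) hx
          rcases min_lt_iff.1 h6 with h7 | h7
          · exact lt_of_lt_of_le h7 (min_le_left _ _)
          · exact absurd h7 (not_lt.2 (min_le_right _ _))
        · push Not at hxc
          rw [h2 x hxc, abs_zero]
          exact hε
      · have h3 : (closure (⋃ n, A n))ᶜ ∈ 𝓝 p := isClosed_closure.isOpen_compl.mem_nhds hp2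
        have h4 : (fun _ : X => (0 : ℝ)) =ᶠ[𝓝 p] h := by
          filter_upwards [h3] with x hx
          rw [h2]
          intro n hn
          exact hx (closure_mono (subset_iUnion A n) hn)
        exact continuousAt_const.congr h4
  exact ⟨⟨h, hcont⟩, fun n x hx => h1 n x (subset_closure hx)⟩
end Pool.Agent.Helper425.FA
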