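import Mathlib
import Pool.Agent.Helper425.FA.Ad
import Pool.Agent.Helper425.FA.Glue

set_option autoImplicit false


open Set Topology Filter

namespace Pool.Agent.Helper425.FA









theorem caseII_rec {α : Type*} (P : ℕ → α → Prop) (Q : ℕ → α → α → Prop) (a0 : α) (ha0 : P 0 a0)
    (hs : ∀ n a, P n a → ∃ a', P (n + 1) a' ∧ Q n a a') :
    ∃ f : ℕ → α, f 0 = a0 ∧ ∀ n, P n (f n) ∧ Q n (f n) (f (n + 1)) := by
  choose g hg1 hg2 using hs
  let F : (n : ℕ) → {a // P n a} := fun n =>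
    Nat.rec ⟨a0, ha0⟩ (fun n a => ⟨g n a.1 a.2, hg1 n a.1 a.2⟩) n
  exact ⟨fun n => (F n).1, rfl, fun n => ⟨(F n).2, hg2 n (F n).1 (F n).2⟩⟩

theorem caseII_close {X ι : Type*} [Countable ι] (op : ι → X → Set X)
    (hop : ∀ i x, (op i x).Countable) (A : Set X) (hA : A.Countable) :
    ∃ A' : Set X, A ⊆ A' ∧ A'.Countable ∧ ∀ i, ∀ x ∈ A', op i x ⊆ A' := by
  let B : ℕ → Set X := fun n => Nat.rec A (fun _ B => B ∪ ⋃ i, ⋃ x ∈ B, op i x) n
  have hBs : ∀ n, B (n+1) = B n ∪ ⋃ i, ⋃ x ∈ B n, op i x := fun n => rfl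
  have hBc : ∀ n, (B n).Countable := by
    intro n
    induction n with
    | zero => exact hA
    | succ n ih =>
      rw [hBs]
      exact ih.union (Set.countable_iUnion fun i => ih.biUnion fun x _ => hop i x)
  refine ⟨⋃ n, B n, fun x hx => Set.mem_iUnion.2 ⟨0, hx⟩, Set.countable_iUnion hBc, ?_⟩
  intro i x hx y hy
  obtain ⟨n, hn⟩ := Set.mem_iUnion.1 hx
  exact Set.mem_iUnion.2 ⟨n+1, by
    rw [hBs]; exact Or.inr (Set.mem_iUnion.2 ⟨i, Set.mem_biUnion hn hy⟩)⟩

/-- the bounds -/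
noncomputable def caseII_bb {X : Type} [TopologicalSpace X] (z : Finset ℕ → Cp X) (m : ℕ) : Cp X :=
  ⟨fun x => min 1 (∑ s ∈ (Finset.range m).powerset, |(z (insert m s)).1 x - (z s).1 x|), by
    refine continuous_const.min (continuous_finset_sum _ fun s _ => ?_)
    exact ((z (insert m s)).2.sub (z s).2).abs⟩

/-- the sums of the bounds -/
noncomputable def caseII_ww {X : Type} [TopologicalSpace X] (z : Finset ℕ → Cp X) (s : Finset ℕ) :
    Cp X :=
  ⟨fun x => ∑ m ∈ s, (caseII_bb z m).1 x, continuous_finset_sum _ fun m _ => (caseII_bb z m).2⟩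

theorem caseII_insert_subset {m : ℕ} {s : Finset ℕ} (hs : s ⊆ Finset.range m) :
    insert m s ⊆ Finset.range (m + 1) := by
  intro k hk
  rw [Finset.mem_insert] at hk
  rw [Finset.mem_range]
  rcases hk with rfl | hk
  · omega
  · have := Finset.mem_range.1 (hs hk)
    omega

theorem caseII_bb_congr {X : Type} [TopologicalSpace X] (z z' : Finset ℕ → Cp X) (m : ℕ)
    (h : ∀ s ⊆ Finset.range (m + 1), z s = z' s) : caseII_bb z m = caseII_bb z' m := by
  apply Subtype.ext
  funext x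
  change min 1 (∑ s ∈ (Finset.range m).powerset, |(z (insert m s)).1 x - (z s).1 x|) =
    min 1 (∑ s ∈ (Finset.range m).powerset, |(z' (insert m s)).1 x - (z' s).1 x|)
  congr 1
  refine Finset.sum_congr rfl fun s hs => ?_
  have hs' := Finset.mem_powerset.1 hs
  rw [h _ (caseII_insert_subset hs'), h s (hs'.trans (Finset.range_mono (Nat.le_succ m)))]

theorem caseII_ww_congr {X : Type} [TopologicalSpace X] (z z' : Finset ℕ → Cp X) (n : ℕ)
    (h : ∀ s ⊆ Finset.range n, z s = z' s) (s : Finset ℕ) (hs : s ⊆ Finset.range n) :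
    caseII_ww z s = caseII_ww z' s := by
  apply Subtype.ext
  funext x
  change ∑ m ∈ s, (caseII_bb z m).1 x = ∑ m ∈ s, (caseII_bb z' m).1 x
  refine Finset.sum_congr rfl fun m hm => ?_
  have h1 := Finset.mem_range.1 (hs hm)
  rw [caseII_bb_congr z z' m (fun t ht => h t (ht.trans (Finset.range_mono (by omega))))]

theorem caseII_ext (X : Type) [TopologicalSpace X]
    (hL1 : ∀ T : Set X, T.Countable →
      ∃ A : Set X, A.Countable ∧ ∃ f : Cp X, (∀ x, 0 ≤ f.1 x ∧ f.1 x ≤ 1) ∧ (∀ x ∈ T, f.1 x = 1) ∧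
      (∀ x, x ∉ closure A → f.1 x = 0))
    (F : Set (Cp X)) (hF : IsClosed F)
    (hII : ∀ (A : Set X), A.Countable → ∀ z : Cp X, ∃ f : Cp X, (∀ x ∈ A, f.1 x = z.1 x) ∧ f ∉ F)
    (A : Set X) (hA : A.Countable) (z : Cp X) :
    ∃ (A' : Set X) (z' : Cp X), A ⊆ A' ∧ A'.Countable ∧ (∀ x ∈ A, z'.1 x = z.1 x) ∧
      (∀ x, x ∉ closure A' → z'.1 x = 0) ∧ ∀ f ∈ F, ∃ x ∈ A', f.1 x ≠ z'.1 x := by
  obtain ⟨g0, hg0, hg0F⟩ := hII A hA z
  have hop : IsOpen Fᶜ := hF.isOpen_compl
  obtain ⟨V, hV, hVF⟩ := isOpen_induced_iff.1 hop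
  have hgV : g0.1 ∈ V := by
    have : g0 ∈ Subtype.val ⁻¹' V := by rw [hVF]; exact hg0F
    exact this
  obtain ⟨R, u, hu, hRu⟩ := isOpen_pi_iff.1 hV g0.1 hgV
  have hT : (A ∪ (R : Set X)).Countable := hA.union R.countable_toSet
  obtain ⟨B, hB, f1, _, hf1, hf0⟩ := hL1 _ hT
  refine ⟨B ∪ (A ∪ (R : Set X)), ⟨fun x => g0.1 x * f1.1 x, g0.2.mul f1.2⟩,
    fun x hx => Or.inr (Or.inl hx), hB.union hT, ?_, ?_, ?_⟩
  · intro x hx
    change g0.1 x * f1.1 x = z.1 x
    rw [hf1 x (Or.inl hx), mul_one, hg0 x hx]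
  · intro x hx
    change g0.1 x * f1.1 x = 0
    rw [hf0 x (fun h => hx (closure_mono Set.subset_union_left h)), mul_zero]
  · intro f hf
    by_contra hcon
    push Not at hcon
    have h1 : f.1 ∈ V := by
      apply hRu
      intro x hx
      have h2 := hcon x (Or.inr (Or.inr hx))
      have h3 : f.1 x = g0.1 x := by
        rw [h2]
        change g0.1 x * f1.1 x = g0.1 x
        rw [hf1 x (Or.inr hx), mul_one]
      rw [h3]
      exact (hu x hx).2
    have h4 : f ∈ Fᶜ := by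
      rw [← hVF]
      exact h1
    exact h4 hf

/-- invariant -/
def caseII_P {X : Type} [TopologicalSpace X] (n : ℕ) (st : Set X × (Finset ℕ → Cp X)) : Prop :=
  st.1.Countable ∧ (∀ s ⊆ Finset.range n, ∀ x, x ∉ closure st.1 → (st.2 s).1 x = 0) ∧
    ∀ x, (st.2 ∅).1 x = 0

/-- step -/
def caseII_Q {X : Type} [TopologicalSpace X] (S : Cp X → X → Set X) (F : ℕ → Set (Cp X)) (n : ℕ)
    (st st' : Set X × (Finset ℕ → Cp X)) : Prop :=
  st.1 ⊆ st'.1 ∧ closure st.1 ⊆ interior (closure st'.1) ∧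
  (∀ s ⊆ Finset.range n, st'.2 s = st.2 s) ∧
  (∀ s ⊆ Finset.range n, ∀ x ∈ st.1, (st'.2 (insert n s)).1 x = (st.2 s).1 x) ∧
  (∀ s ⊆ Finset.range n, ∀ f ∈ F n, ∃ x ∈ st'.1, f.1 x ≠ (st'.2 (insert n s)).1 x) ∧
  (∀ s ⊆ Finset.range (n + 1), ∀ x ∈ st'.1, S (caseII_ww st'.2 s) x ⊆ st'.1)

open Classical in
theorem caseII_step (X : Type) [TopologicalSpace X]
    (S : Cp X → X → Set X) (hS : ∀ f x, (S f x).Countable)
    (hL1 : ∀ T : Set X, T.Countable →
      ∃ A : Set X, A.Countable ∧ ∃ f : Cp X, (∀ x, 0 ≤ f.1 x ∧ f.1 x ≤ 1) ∧ (∀ x ∈ T, f.1 x = 1) ∧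
      (∀ x, x ∉ closure A → f.1 x = 0))
    (F : ℕ → Set (Cp X)) (hF : ∀ n, IsClosed (F n))
    (hII : ∀ n (A : Set X), A.Countable → ∀ z : Cp X, ∃ f : Cp X, (∀ x ∈ A, f.1 x = z.1 x) ∧ f ∉ F n)
    (n : ℕ) (st : Set X × (Finset ℕ → Cp X)) (hP : caseII_P n st) :
    ∃ st', caseII_P (n + 1) st' ∧ caseII_Q S F n st st' := by
  obtain ⟨A, z⟩ := st
  obtain ⟨hA, hz, hz0⟩ := hP
  simp only at hA hz hz0
  have hext := fun s => caseII_ext X hL1 (F n) (hF n) (hII n) A hA (z s)
  choose A1 Z' h1 h2 h3 h4 h5 using hext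
  obtain ⟨A2, hA2, f2, hf01, hf1, hf0⟩ := hL1 A hA
  obtain ⟨z', hz'⟩ : ∃ z' : Finset ℕ → Cp X, ∀ t, z' t = if n ∈ t then Z' (t.erase n) else z t :=
    ⟨_, fun _ => rfl⟩
  have hz'1 : ∀ s ⊆ Finset.range n, z' s = z s := by
    intro s hs
    rw [hz', if_neg]
    intro h
    exact absurd (Finset.mem_range.1 (hs h)) (lt_irrefl n)
  have hz'2 : ∀ s ⊆ Finset.range n, z' (insert n s) = Z' s := by
    intro s hs
    rw [hz', if_pos (Finset.mem_insert_self n s), Finset.erase_insert]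
    intro h
    exact absurd (Finset.mem_range.1 (hs h)) (lt_irrefl n)
  have hcount : (A ∪ A2 ∪ ⋃ s, A1 s).Countable :=
    (hA.union hA2).union (Set.countable_iUnion h2)
  obtain ⟨A', hAA', hA'c, hA'cl⟩ := caseII_close (fun (s : Finset ℕ) x => S (caseII_ww z' s) x)
    (fun s x => hS _ x) _ hcount
  have hsub1 : A ⊆ A' := fun x hx => hAA' (Or.inl (Or.inl hx))
  have hsub2 : A2 ⊆ A' := fun x hx => hAA' (Or.inl (Or.inr hx))
  have hsub3 : ∀ s, A1 s ⊆ A' := fun s x hx => hAA' (Or.inr (Set.mem_iUnion.2 ⟨s, hx⟩))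
  refine ⟨(A', z'), ⟨hA'c, ?_, ?_⟩, hsub1, ?_, hz'1, ?_, ?_, fun s _ x hx => hA'cl s x hx⟩
  · intro s hs x hx
    change (z' s).1 x = 0
    rw [hz']
    split_ifs with h
    · exact h4 _ x (fun h' => hx (closure_mono (hsub3 _) h'))
    · refine hz s ?_ x (fun h' => hx (closure_mono hsub1 h'))
      intro k hk
      have hk1 := Finset.mem_range.1 (hs hk)
      rw [Finset.mem_range]
      rcases Nat.lt_succ_iff_lt_or_eq.1 hk1 with h6 | h6
      · exact h6
      · exact absurd (h6 ▸ hk) h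
  · intro x
    change (z' ∅).1 x = 0
    rw [hz'1 ∅ (Finset.empty_subset _)]
    exact hz0 x
  · have hopen : IsOpen {x | (1/2 : ℝ) < f2.1 x} := isOpen_lt continuous_const f2.2
    have hcl : closure A ⊆ {x | (1/2 : ℝ) < f2.1 x} := by
      have h6 : closure A ⊆ {x | f2.1 x = 1} :=
        closure_minimal (fun x hx => hf1 x hx) (isClosed_eq f2.2 continuous_const)
      intro x hx
      have := h6 hx
      simp only [Set.mem_setOf_eq] at this ⊢
      rw [this]; norm_num
    have hsub : {x | (1/2 : ℝ) < f2.1 x} ⊆ closure A' := by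
      intro x hx
      by_contra hcon
      have := hf0 x (fun h' => hcon (closure_mono hsub2 h'))
      simp only [Set.mem_setOf_eq] at hx
      rw [this] at hx
      norm_num at hx
    exact hcl.trans (interior_maximal hsub hopen)
  · intro s hs x hx
    change (z' (insert n s)).1 x = (z s).1 x
    rw [hz'2 s hs]
    exact h3 s x hx
  · intro s hs f hf
    obtain ⟨x, hx, hxf⟩ := h5 s f hf
    refine ⟨x, hsub3 s hx, ?_⟩
    change f.1 x ≠ (z' (insert n s)).1 x
    rw [hz'2 s hs]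
    exact hxf

/-- TARGET: prove this.
Proof. Step 0 (extension step): for all `n`, countable `A`, `z : Cp X` there are a countable `A' ⊇ A` and `z' : Cp X` with `z' = z` on `A`, `z' = 0` off `closure A'` and
no `f ∈ F n` agrees with `z'` on `A'`: take `g0 ∉ F n` with `g0 = z` on `A` (`hII`), as `F n` is closed in the pointwise topology there is a finite `R ⊆ X` such that no `f ∈ F n` agrees with `g0` on `R`;
`hL1` for `T = A ∪ R` gives `A'`, `f1`; `z' = g0 * f1`; enlarge `A'` by `A ∪ R`.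
Step 1 (recursion on `n`): countable sets `A n`, and functions `z s : Cp X` for `s : Finset ℕ` (histories; at stage `n` only `s ⊆ range n` matter) with
(i) `z ∅ = 0`; (ii) for `s ⊆ range n`: `z (insert n s) = z s` on `A n`, and no `f ∈ F n` agrees with `z (insert n s)` on `A (n+1)`; (iii) `z s = 0` off `closure (A n)` for `s ⊆ range n`;
(iv) `A n ⊆ A (n+1)` and `closure (A n) ⊆ interior (closure (A (n+1)))` (use `hL1` with `T = A n`: `closure (A n) ⊆ {f > 1/2} ⊆ closure A'`);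
(v) with `b m := min 1 (max over s ⊆ range m of |z (insert m s) - z s|)` (continuous, in [0,1], zero on `A m`, zero off `closure (A (m+1))`), the set `A n` is closed under `S w ·` for
`w = ∑_{m ∈ s} b m`, all `s ⊆ range n` (`x ∈ A n → S w x ⊆ A n`; closing off a countable set under countably many countable-valued operations).
(All the `z s`, `s ⊆ range (n+1)`, and `b m`, `m ≤ n`, are known before `A (n+1)` is chosen.)
Step 2: for `M : Set ℕ` the functions `w n = ∑_{m<n, m∈M} b m` are [0,1]-valued (disjoint supports) and `hLim` gives `g M : Cp X` with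
`g M = ∑_{m<n, m ∈ M} b m` on `A n`. `ad_lemma` gives an infinite `M` with `g M = 0` on `closure (⋃ A n) \ ⋃ closure (A n)`.
Step 3: `Z n = z (M ∩ range n)`; `min |Z n x| 1 ≤ ∑_{m<n, m∈M} b m x` for all `x` by induction on `n`; `glue_lemma` gives `h : Cp X` with `h = Z n` on `A n`.
`h ∈ F k` for some `k`; take `n ∈ M`, `n ≥ k`; `h ∈ F n` agrees with `Z (n+1) = z (insert n (M ∩ range n))` on `A (n+1)`: contradiction with (ii). -/
theorem caseII (X : Type) [TopologicalSpace X] [T35Space X] [LindelofSpace (Cp X)]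
    (S : Cp X → X → Set X) (hS : ∀ f x, (S f x).Countable)
    (hLim : ∀ (A : ℕ → Set X) (z : ℕ → Cp X), Monotone A → (∀ n x, 0 ≤ (z n).1 x ∧ (z n).1 x ≤ 1) →
      (∀ n, ∀ x ∈ A n, S (z n) x ⊆ A n) →
      (∀ n m, n ≤ m → ∀ x ∈ A n, (z m).1 x = (z n).1 x) →
      ∃ h : Cp X, (∀ x, 0 ≤ h.1 x ∧ h.1 x ≤ 1) ∧ ∀ n, ∀ x ∈ A n, h.1 x = (z n).1 x)
    (hL1 : ∀ T : Set X, T.Countable →
      ∃ A : Set X, A.Countable ∧ ∃ f : Cp X, (∀ x, 0 ≤ f.1 x ∧ f.1 x ≤ 1) ∧ (∀ x ∈ T, f.1 x = 1) ∧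
      (∀ x, x ∉ closure A → f.1 x = 0))
    (F : ℕ → Set (Cp X)) (hF : ∀ n, IsClosed (F n)) (hmono : Monotone F) (hU : ∀ f, ∃ n, f ∈ F n)
    (hII : ∀ n (A : Set X), A.Countable → ∀ z : Cp X, ∃ f : Cp X, (∀ x ∈ A, f.1 x = z.1 x) ∧ f ∉ F n) :
    False := by
  classical
  obtain ⟨st, hst0, hst⟩ := caseII_rec caseII_P (caseII_Q S F)
    ((∅ : Set X), fun _ => (⟨fun _ => 0, continuous_const⟩ : Cp X)) ⟨Set.countable_empty,
      fun _ _ _ _ => rfl, fun _ => rfl⟩
    (caseII_step X S hS hL1 F hF hII)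
  -- the sets and functions
  obtain ⟨A, hAdef⟩ : ∃ A : ℕ → Set X, ∀ n, A n = (st n).1 := ⟨_, fun _ => rfl⟩
  have hstab : ∀ (s : Finset ℕ) (n m : ℕ), s ⊆ Finset.range n → n ≤ m → (st m).2 s = (st n).2 s := by
    intro s n m hs hnm
    induction m, hnm using Nat.le_induction with
    | base => rfl
    | succ m hm ih =>
      rw [← ih]
      exact (hst m).2.2.2.1 s (hs.trans (Finset.range_mono hm))
  obtain ⟨zf, hzf⟩ : ∃ zf : Finset ℕ → Cp X, ∀ s, zf s = (st (s.sup id + 1)).2 s :=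
    ⟨_, fun _ => rfl⟩
  have hsup : ∀ s : Finset ℕ, s ⊆ Finset.range (s.sup id + 1) := by
    intro s k hk
    rw [Finset.mem_range, Nat.lt_succ_iff]
    exact Finset.le_sup (f := id) hk
  have hzfn : ∀ (s : Finset ℕ) (n : ℕ), s ⊆ Finset.range n → zf s = (st n).2 s := by
    intro s n hs
    rw [hzf, ← hstab s (s.sup id + 1) (max n (s.sup id + 1)) (hsup s) (le_max_right _ _),
      hstab s n (max n (s.sup id + 1)) hs (le_max_left _ _)]
  have hAmono : Monotone A := monotone_nat_of_le_succ fun n => by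
    rw [hAdef, hAdef]; exact (hst n).2.1
  have hAint : ∀ n, closure (A n) ⊆ interior (closure (A (n + 1))) := fun n => by
    rw [hAdef, hAdef]; exact (hst n).2.2.1
  have hzoff : ∀ n, ∀ s ⊆ Finset.range n, ∀ x, x ∉ closure (A n) → (zf s).1 x = 0 := by
    intro n s hs x hx
    rw [hzfn s n hs]
    exact (hst n).1.2.1 s hs x (by rw [← hAdef]; exact hx)
  have hzins : ∀ n, ∀ s ⊆ Finset.range n, ∀ x ∈ A n, (zf (insert n s)).1 x = (zf s).1 x := by
    intro n s hs x hx
    rw [hzfn s n hs, hzfn (insert n s) (n + 1) (caseII_insert_subset hs)]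
    exact (hst n).2.2.2.2.1 s hs x (by rw [← hAdef]; exact hx)
  have hzF : ∀ n, ∀ s ⊆ Finset.range n, ∀ f ∈ F n, ∃ x ∈ A (n + 1), f.1 x ≠ (zf (insert n s)).1 x := by
    intro n s hs f hf
    rw [hzfn (insert n s) (n + 1) (caseII_insert_subset hs), hAdef]
    exact (hst n).2.2.2.2.2.1 s hs f hf
  have hAS : ∀ n, ∀ s ⊆ Finset.range n, ∀ x ∈ A n, S (caseII_ww zf s) x ⊆ A n ∨ n = 0 := by
    intro n s hs x hx
    rcases Nat.eq_zero_or_pos n with h0 | h0
    · exact Or.inr h0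
    · obtain ⟨k, rfl⟩ : ∃ k, n = k + 1 := ⟨n - 1, by omega⟩
      left
      rw [hAdef] at hx ⊢
      have := (hst k).2.2.2.2.2.2 s hs x hx
      rwa [← caseII_ww_congr zf (st (k + 1)).2 (k + 1) (fun t ht => hzfn t (k + 1) ht) s hs] at this
  obtain ⟨b, hb⟩ : ∃ b : ℕ → Cp X, ∀ m, b m = caseII_bb zf m := ⟨_, fun _ => rfl⟩
  have hbx : ∀ m x, (b m).1 x =
      min 1 (∑ s ∈ (Finset.range m).powerset, |(zf (insert m s)).1 x - (zf s).1 x|) := by
    intro m x; rw [hb]; rfl
  have hbnn : ∀ m x, 0 ≤ (b m).1 x := by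
    intro m x
    rw [hbx]
    exact le_min zero_le_one (Finset.sum_nonneg fun s _ => abs_nonneg _)
  have hble : ∀ m x, (b m).1 x ≤ 1 := by
    intro m x
    rw [hbx]
    exact min_le_left _ _
  have hbge : ∀ m, ∀ s ⊆ Finset.range m, ∀ x,
      min |(zf (insert m s)).1 x - (zf s).1 x| 1 ≤ (b m).1 x := by
    intro m s hs x
    rw [hbx, min_comm]
    refine min_le_min le_rfl ?_
    exact Finset.single_le_sum (f := fun s => |(zf (insert m s)).1 x - (zf s).1 x|)
      (fun s _ => abs_nonneg _) (Finset.mem_powerset.2 hs)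
  have hb0 : ∀ m, ∀ x ∈ A m, (b m).1 x = 0 := by
    intro m x hx
    rw [hbx, Finset.sum_eq_zero, min_eq_right zero_le_one]
    intro s hs
    rw [hzins m s (Finset.mem_powerset.1 hs) x hx, sub_self, abs_zero]
  have hb0' : ∀ m, ∀ x ∈ closure (A m), (b m).1 x = 0 := by
    intro m x hx
    have h6 : closure (A m) ⊆ {x | (b m).1 x = 0} :=
      closure_minimal (fun x hx => hb0 m x hx) (isClosed_eq (b m).2 continuous_const)
    exact h6 hx
  have hb1 : ∀ m, ∀ x, x ∉ closure (A (m + 1)) → (b m).1 x = 0 := by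
    intro m x hx
    rw [hbx, Finset.sum_eq_zero, min_eq_right zero_le_one]
    intro s hs
    have hs' := Finset.mem_powerset.1 hs
    rw [hzoff (m + 1) _ (caseII_insert_subset hs') x hx,
      hzoff (m + 1) s (hs'.trans (Finset.range_mono (Nat.le_succ m))) x hx, sub_self, abs_zero]
  have hdisj : ∀ m m' x, (b m).1 x ≠ 0 → (b m').1 x ≠ 0 → m = m' := by
    have key : ∀ m m' x, m < m' → (b m).1 x ≠ 0 → (b m').1 x ≠ 0 → False := by
      intro m m' x hmm h h'
      have h6 : x ∈ closure (A (m + 1)) := by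
        by_contra hcon; exact h (hb1 m x hcon)
      exact h' (hb0' m' x (closure_mono (hAmono hmm) h6))
    intro m m' x h h'
    rcases lt_trichotomy m m' with h6 | h6 | h6
    · exact (key m m' x h6 h h').elim
    · exact h6
    · exact (key m' m x h6 h' h).elim
  have hwx : ∀ s x, (caseII_ww zf s).1 x = ∑ m ∈ s, (b m).1 x := by
    intro s x
    simp only [hb]
    rfl
  have hw01 : ∀ s x, 0 ≤ (caseII_ww zf s).1 x ∧ (caseII_ww zf s).1 x ≤ 1 := by
    intro s x
    rw [hwx]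
    refine ⟨Finset.sum_nonneg fun m _ => hbnn m x, ?_⟩
    by_cases hex : ∃ m ∈ s, (b m).1 x ≠ 0
    · obtain ⟨m, hm, hmx⟩ := hex
      rw [Finset.sum_eq_single m]
      · exact hble m x
      · intro m' _ hne
        by_contra hcon
        exact hne (hdisj m' m x hcon hmx)
      · intro h; exact absurd hm h
    · push Not at hex
      rw [Finset.sum_eq_zero hex]
      exact zero_le_one
  have hfsub : ∀ (M : Set ℕ) n, (Finset.range n).filter (· ∈ M) ⊆ Finset.range n :=
    fun M n => Finset.filter_subset _ _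
  have hind : ∀ (M : Set ℕ) n x, (caseII_ww zf ((Finset.range n).filter (· ∈ M))).1 x =
      ∑ m ∈ (Finset.range n), M.indicator (fun m => (b m).1 x) m := by
    intro M n x
    rw [hwx, Finset.sum_filter]
    refine Finset.sum_congr rfl fun m _ => ?_
    rw [Set.indicator_apply]
  have hgex : ∀ M : Set ℕ, ∃ g : Cp X, ∀ n, ∀ x ∈ A n,
      g.1 x = (caseII_ww zf ((Finset.range n).filter (· ∈ M))).1 x := by
    intro M
    obtain ⟨g, _, hg⟩ := hLim A (fun n => caseII_ww zf ((Finset.range n).filter (· ∈ M))) hAmono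
      (fun n x => hw01 _ x) (fun n x hx => by
        rcases hAS n _ (hfsub M n) x hx with h6 | h6
        · exact h6
        · subst h6
          exfalso
          have h8 : A 0 = ∅ := by
            rw [hAdef, hst0]
          rw [h8] at hx
          exact hx)
      (fun n m hnm x hx => by
        rw [hwx, hwx]
        symm
        refine Finset.sum_subset (Finset.filter_subset_filter _ (Finset.range_mono hnm)) ?_
        intro k hk hk'
        apply hb0 k x
        refine hAmono ?_ hx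
        by_contra hcon
        apply hk'
        rw [Finset.mem_filter] at hk ⊢
        exact ⟨Finset.mem_range.2 (not_le.1 hcon), hk.2⟩)
    exact ⟨g, hg⟩
  choose g hg using hgex
  obtain ⟨M, hMinf, hM⟩ := ad_lemma X A hAmono b hb0 hb1 g (fun M n x hx => by
    rw [hg M n x hx, hind])
  obtain ⟨Z, hZ⟩ : ∃ Z : ℕ → Cp X, ∀ n, Z n = zf ((Finset.range n).filter (· ∈ M)) :=
    ⟨_, fun _ => rfl⟩
  have hfs : ∀ n, n ∈ M → (Finset.range (n + 1)).filter (· ∈ M) =
      insert n ((Finset.range n).filter (· ∈ M)) := by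
    intro n hn
    rw [Finset.range_add_one, Finset.filter_insert, if_pos hn]
  have hfs' : ∀ n, n ∉ M → (Finset.range (n + 1)).filter (· ∈ M) =
      (Finset.range n).filter (· ∈ M) := by
    intro n hn
    rw [Finset.range_add_one, Finset.filter_insert, if_neg hn]
  have hZs : ∀ n, ∀ x ∈ A n, (Z (n + 1)).1 x = (Z n).1 x := by
    intro n x hx
    rw [hZ, hZ]
    by_cases hn : n ∈ M
    · rw [hfs n hn]
      exact hzins n _ (hfsub M n) x hx
    · rw [hfs' n hn]
  have hZb : ∀ n x, min |(Z n).1 x| 1 ≤ (caseII_ww zf ((Finset.range n).filter (· ∈ M))).1 x := by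
    intro n x
    induction n with
    | zero =>
      rw [hZ, hwx]
      have h6 : (Finset.range 0).filter (· ∈ M) = ∅ := by simp
      rw [h6, Finset.sum_empty, hzfn ∅ 0 (Finset.empty_subset _), (hst 0).1.2.2 x, abs_zero]
      exact min_le_left _ _
    | succ n ih =>
      by_cases hn : n ∈ M
      · have h6 : (caseII_ww zf ((Finset.range (n + 1)).filter (· ∈ M))).1 x =
            (b n).1 x + (caseII_ww zf ((Finset.range n).filter (· ∈ M))).1 x := by
          rw [hwx, hwx, hfs n hn, Finset.sum_insert (by simp)]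
        rw [h6]
        have h7 := hbge n _ (hfsub M n) x
        rw [← hfs n hn, ← hZ, ← hZ] at h7
        have h8 : |(Z (n + 1)).1 x| ≤ |(Z (n + 1)).1 x - (Z n).1 x| + |(Z n).1 x| := by
          have := abs_add_le ((Z (n + 1)).1 x - (Z n).1 x) ((Z n).1 x)
          rwa [sub_add_cancel] at this
        have h9 := abs_nonneg ((Z (n + 1)).1 x - (Z n).1 x)
        have h10 := abs_nonneg ((Z n).1 x)
        rcases le_total (|(Z (n + 1)).1 x - (Z n).1 x|) 1 with h11 | h11 <;>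
        rcases le_total (|(Z n).1 x|) 1 with h12 | h12 <;>
        rcases le_total (|(Z (n + 1)).1 x|) 1 with h13 | h13 <;>
        simp only [min_eq_left, min_eq_right, h11, h12, h13] at h7 ih ⊢ <;> linarith
      · rw [hZ, hfs' n hn, ← hZ]
        exact ih
  obtain ⟨h, hh⟩ := glue_lemma X A hAmono hAint Z hZs (g M) (fun n x hx => by
    rw [hg M n x hx]
    exact hZb n x) hM
  obtain ⟨k, hk⟩ := hU h
  obtain ⟨n, hnM, hnk⟩ := hMinf.exists_gt k
  have hhn : h ∈ F n := hmono hnk.le hk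
  obtain ⟨x, hx, hxne⟩ := hzF n _ (hfsub M n) h hhn
  apply hxne
  rw [hh (n + 1) x hx, hZ, hfs n hnM]


end Pool.Agent.Helper425.FA
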