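import Mathlib
import Pool.Agent.Helper425.FA.Basic

set_option autoImplicit false


open Set Topology Filter

namespace Pool.Agent.Helper425.FA





/-- TARGET: prove this.
Proof. For `a ∈ A` and `m : ℕ` the set `P = {(f,g) | 1/(m+1) ≤ |f a - g a|}` is closed in `Cp X × Cp X`, so Lindelöf; for `(f,g) ∈ P` pick a continuous
`u : Y → ℝ` with `u (φ f) ≠ u (φ g)` (complete regularity of the T0 space Y); countably many of the open sets `{(f,g) | u (φ f) ≠ u (φ g)}` cover `P`. As `A` is countable and dense, we get a countable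
family `u n : Y → ℝ` of continuous functions separating the points of `Y` (if `f ≠ g` then `f a ≠ g a` for some `a ∈ A`). So there is a continuous injection `q : Y → (ℕ → ℝ)`. Each
`K n = compactCovering Y n` is compact, `q` restricted to it is a closed embedding, so `K n` (subtype) is second countable; the images in `Y` of the members of countable bases of all the `K n` form
a countable network. -/
theorem cosmic_of_sq (X Y : Type) [TopologicalSpace X] [TopologicalSpace Y] [T35Space Y]
    [LindelofSpace (Cp X × Cp X)] [SigmaCompactSpace Y] (φ : Cp X → Y) (hφ : Continuous φ)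
    (hb : Function.Bijective φ) (A : Set X) (hA : A.Countable) (hd : Dense A) :
    ∃ 𝒩 : Set (Set Y), 𝒩.Countable ∧ ∀ y : Y, ∀ U : Set Y, IsOpen U → y ∈ U →
      ∃ N ∈ 𝒩, y ∈ N ∧ N ⊆ U := by
  classical
  -- separating countable family
  have hstep : ∀ a : X, ∀ m : ℕ, ∃ C : Set (Y → ℝ), C.Countable ∧ (∀ u ∈ C, Continuous u) ∧
      ∀ f g : Cp X, 1 / ((m : ℝ) + 1) ≤ |f.1 a - g.1 a| → ∃ u ∈ C, u (φ f) ≠ u (φ g) := by
    intro a m
    set P : Set (Cp X × Cp X) := {p | 1 / ((m : ℝ) + 1) ≤ |p.1.1 a - p.2.1 a|} with hP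
    have hcont : Continuous (fun p : Cp X × Cp X => |p.1.1 a - p.2.1 a|) := by
      have h1 : Continuous (fun f : Cp X => f.1 a) :=
        (continuous_apply a).comp continuous_subtype_val
      exact ((h1.comp continuous_fst).sub (h1.comp continuous_snd)).abs
    have hPc : IsClosed P := isClosed_le continuous_const hcont
    have hPl : IsLindelof P := hPc.isLindelof
    have hsep : ∀ p : Cp X × Cp X, ∃ u : Y → ℝ, Continuous u ∧ (p ∈ P → u (φ p.1) ≠ u (φ p.2)) := by
      intro p
      by_cases hp : p ∈ P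
      · have hne : p.1 ≠ p.2 := by
          intro h
          have h2 : 1 / ((m : ℝ) + 1) ≤ |p.1.1 a - p.2.1 a| := hp
          rw [h] at h2
          simp only [sub_self, abs_zero] at h2
          have h3 : (0 : ℝ) < 1 / ((m : ℝ) + 1) := by positivity
          linarith
        have hne2 : φ p.1 ≠ φ p.2 := fun h => hne (hb.1 h)
        obtain ⟨v, hv, h0, h1⟩ := CompletelyRegularSpace.completely_regular (φ p.1) {φ p.2}
          isClosed_singleton (by simpa using hne2)
        refine ⟨fun y => (v y : ℝ), continuous_subtype_val.comp hv, fun _ => ?_⟩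
        have h2 : v (φ p.2) = 1 := h1 (Set.mem_singleton _)
        show ((v (φ p.1) : ℝ)) ≠ (v (φ p.2) : ℝ)
        rw [h0, h2]
        simp
      · exact ⟨fun _ => 0, continuous_const, fun h => absurd h hp⟩
    choose u hu hu2 using hsep
    obtain ⟨r, hr, hr2⟩ := hPl.elim_countable_subcover
      (fun p : Cp X × Cp X => {q : Cp X × Cp X | u p (φ q.1) ≠ u p (φ q.2)})
      (fun p => by
        have h1 : Continuous (fun q : Cp X × Cp X => u p (φ q.1)) :=
          (hu p).comp (hφ.comp continuous_fst)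
        have h2 : Continuous (fun q : Cp X × Cp X => u p (φ q.2)) :=
          (hu p).comp (hφ.comp continuous_snd)
        exact isOpen_ne_fun h1 h2)
      (fun q hq => Set.mem_iUnion.mpr ⟨q, hu2 q hq⟩)
    refine ⟨u '' r, hr.image u, ?_, ?_⟩
    · rintro _ ⟨p, _, rfl⟩
      exact hu p
    · intro f g hfg
      have h1 : (f, g) ∈ P := hfg
      have h2 := hr2 h1
      simp only [Set.mem_iUnion] at h2
      obtain ⟨p, hp, hq⟩ := h2
      exact ⟨u p, ⟨p, hp, rfl⟩, hq⟩
  choose C hC1 hC2 hC3 using hstep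
  set 𝒰 : Set (Y → ℝ) := ⋃ a ∈ A, ⋃ m : ℕ, C a m with h𝒰
  have h𝒰c : 𝒰.Countable := by
    refine hA.biUnion (fun a _ => ?_)
    exact Set.countable_iUnion (fun m => hC1 a m)
  have h𝒰cont : ∀ u ∈ 𝒰, Continuous u := by
    intro u hu
    simp only [h𝒰, Set.mem_iUnion] at hu
    obtain ⟨a, _, m, hu⟩ := hu
    exact hC2 a m u hu
  have h𝒰sep : ∀ y z : Y, y ≠ z → ∃ u ∈ 𝒰, u y ≠ u z := by
    intro y z hyz
    obtain ⟨f, rfl⟩ := hb.2 y
    obtain ⟨g, rfl⟩ := hb.2 z
    have hfg : f.1 ≠ g.1 := by
      intro h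
      exact hyz (congrArg φ (Subtype.ext h))
    have hex : ∃ a ∈ A, f.1 a ≠ g.1 a := by
      by_contra hcon
      push Not at hcon
      exact hfg (Continuous.ext_on hd f.2 g.2 (fun a ha => hcon a ha))
    obtain ⟨a, ha, hne⟩ := hex
    have hpos : 0 < |f.1 a - g.1 a| := abs_pos.mpr (sub_ne_zero.mpr hne)
    obtain ⟨m, hm⟩ := exists_nat_one_div_lt hpos
    obtain ⟨u, hu, hu2⟩ := hC3 a m f g hm.le
    refine ⟨u, ?_, hu2⟩
    simp only [h𝒰, Set.mem_iUnion]
    exact ⟨a, ha, m, hu⟩
  haveI : Countable 𝒰 := h𝒰c.to_subtype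
  let q : Y → (𝒰 → ℝ) := fun y u => u.1 y
  have hq : Continuous q := continuous_pi (fun u => h𝒰cont u.1 u.2)
  have hqi : Function.Injective q := by
    intro y z h
    by_contra hne
    obtain ⟨u, hu, hu2⟩ := h𝒰sep y z hne
    exact hu2 (congrFun h ⟨u, hu⟩)
  have hsc : ∀ n : ℕ, SecondCountableTopology (compactCovering Y n) := by
    intro n
    haveI : CompactSpace (compactCovering Y n) :=
      isCompact_iff_compactSpace.mp (isCompact_compactCovering Y n)
    have h1 : Continuous (fun y : compactCovering Y n => q y.1) := hq.comp continuous_subtype_val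
    have h2 : Function.Injective (fun y : compactCovering Y n => q y.1) :=
      hqi.comp Subtype.val_injective
    have h3 := (h1.isClosedEmbedding h2).isEmbedding
    exact h3.secondCountableTopology
  refine ⟨⋃ n : ℕ, (fun B : Set (compactCovering Y n) => Subtype.val '' B) ''
    (@TopologicalSpace.countableBasis (compactCovering Y n) _ (hsc n)), ?_, ?_⟩
  · refine Set.countable_iUnion (fun n => ?_)
    haveI := hsc n
    exact (TopologicalSpace.countable_countableBasis _).image _
  · intro y U hU hy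
    have h1 : y ∈ ⋃ n, compactCovering Y n := by
      rw [iUnion_compactCovering]; trivial
    obtain ⟨n, hn⟩ := Set.mem_iUnion.mp h1
    haveI := hsc n
    obtain ⟨B, hB, hyB, hBU⟩ :=
      (TopologicalSpace.isBasis_countableBasis (compactCovering Y n)).exists_subset_of_mem_open
        (show (⟨y, hn⟩ : compactCovering Y n) ∈ (Subtype.val ⁻¹' U : Set (compactCovering Y n))
          from hy) (hU.preimage continuous_subtype_val)
    refine ⟨Subtype.val '' B, Set.mem_iUnion.mpr ⟨n, B, hB, rfl⟩, ⟨⟨y, hn⟩, hyB, rfl⟩, ?_⟩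
    rintro _ ⟨z, hz, rfl⟩
    exact hBU hz

end Pool.Agent.Helper425.FA
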