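import Mathlib
import Pool.Agent.Helper425.FA.Basic

set_option autoImplicit false


open Set Topology Filter

namespace Pool.Agent.Helper425.FA





/-- TARGET: prove this.
Proof. `K` compact, so `fun n => φ (z n)` has a cluster point `y ∈ K` along `atTop` (`IsCompact.exists_clusterPt`
or `exists_mapClusterPt`); `y = φ h`. For `n` and `x ∈ A n` all `φ (z m)`, `m ≥ n`, are in
`φ '' {g | ∀ s ∈ S (z n) x, g.1 s = (z n).1 s}` by `hcl`, `hco`; hence `y` is in its closure and `hS` applies. -/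
theorem limit_lemma (X Y : Type) [TopologicalSpace X] [TopologicalSpace Y]
    (φ : Cp X → Y) (hsur : Function.Surjective φ) (K : Set Y) (hK : IsCompact K)
    (S : Cp X → X → Set X)
    (hS : ∀ f x (h : Cp X), φ h ∈ closure (φ '' {g | ∀ s ∈ S f x, g.1 s = f.1 s}) → h.1 x = f.1 x)
    (A : ℕ → Set X) (z : ℕ → Cp X) (hz : ∀ n, φ (z n) ∈ K)
    (hcl : ∀ n, ∀ x ∈ A n, S (z n) x ⊆ A n)
    (hco : ∀ n m, n ≤ m → ∀ x ∈ A n, (z m).1 x = (z n).1 x) :
    ∃ h : Cp X, φ h ∈ K ∧ ∀ n, ∀ x ∈ A n, h.1 x = (z n).1 x := by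
  have hle : map (fun n => φ (z n)) atTop ≤ 𝓟 K := by
    rw [le_principal_iff]
    exact Filter.mem_map.2 (Filter.univ_mem' (fun n => hz n))
  obtain ⟨y, hyK, hy⟩ := hK hle
  obtain ⟨h, rfl⟩ := hsur y
  refine ⟨h, hyK, fun n x hx => hS (z n) x h ?_⟩
  rw [mem_closure_iff_clusterPt]
  refine hy.mono ?_
  rw [le_principal_iff]
  rw [Filter.mem_map]
  filter_upwards [eventually_ge_atTop n] with m hm
  exact ⟨z m, fun s hs => hco n m hm s (hcl n x hx hs), rfl⟩

end Pool.Agent.Helper425.FA
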