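import Mathlib
import Pool.Agent.Helper425.FA.Omega

set_option autoImplicit false


open Set Topology Filter

namespace Pool.Agent.Helper425.FA







/-- TARGET: prove this.
Proof by contradiction, using `omega_lemma` with `C = Cp X`, `ev f x = f.1 x`,
`Φ = {f | (∀ x, 0 ≤ f x ≤ 1) ∧ ∀ x ∈ T, f x = 1}` (closed, so Lindelöf; contains the constant 1), `A0 = T`.
`hLim` of `omega_lemma` is immediate from `hLim` (`h = z 0 = 1` on `T ⊆ A 0`).
`hStep`: let `A` be countable, `T ⊆ A`. For each `f ∈ Φ` there is `p ∉ closure A` with `f p > 1/4` (otherwise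
`max 0 ((4 f - 1)/3)` would be a function as in the conclusion for this `A`). By Lindelöf there is a countable set `H ⊆ (closure A)ᶜ` with
`∀ f ∈ Φ, ∃ p ∈ H, f p > 1/4`. `H` is infinite: if it were finite, by complete regularity there would be a continuous
`f : X → [0,1]`, `f = 1` on `closure A`, `f = 0` on `H`. So enumerate `H = {p 0, p 1, ...}` injectively
(`Denumerable`). Put `G i = {f | f (p i) > 1/4 ∧ ∀ k < i, f (p k) < 1/3}` (open; they cover `Φ`: take the first `i` with `f (p i) > 1/4`), `Q = H`.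
Given `z ∈ Φ` and `i`, take `u` continuous with values in `[0,1]`, `u = 1` on `A`, `u (p k) = 0` for `k ≤ i` (finite product of functions given by complete regularity),
`v` continuous with values in `[0,1]`, `v (p i) = 1`, `v = 0` on `A` and on `p k`, `k < i`, and `z' = min 1 (z u + v)`.
Then `z' = z` on `A`, `z' (p k) = 0` for `k < i`, `z' (p i) = 1`; so a function equal to `z'` on `Q` is in no `G i'` with `i' ≠ i`. -/
theorem sep_from_countable (X : Type) [TopologicalSpace X] [T35Space X] [LindelofSpace (Cp X)]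
    (S : Cp X → X → Set X) (hS : ∀ f x, (S f x).Countable)
    (hLim : ∀ (A : ℕ → Set X) (z : ℕ → Cp X), Monotone A → (∀ n x, 0 ≤ (z n).1 x ∧ (z n).1 x ≤ 1) →
      (∀ n, ∀ x ∈ A n, S (z n) x ⊆ A n) →
      (∀ n m, n ≤ m → ∀ x ∈ A n, (z m).1 x = (z n).1 x) →
      ∃ h : Cp X, (∀ x, 0 ≤ h.1 x ∧ h.1 x ≤ 1) ∧ ∀ n, ∀ x ∈ A n, h.1 x = (z n).1 x)
    (T : Set X) (hT : T.Countable) :
    ∃ A : Set X, A.Countable ∧ ∃ f : Cp X, (∀ x, 0 ≤ f.1 x ∧ f.1 x ≤ 1) ∧ (∀ x ∈ T, f.1 x = 1) ∧
      (∀ x, x ∉ closure A → f.1 x = 0) := by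
  classical
  by_contra hcon
  push Not at hcon
  have hev : ∀ x : X, Continuous (fun f : Cp X => f.1 x) := fun x =>
    (continuous_apply x).comp continuous_subtype_val
  let Φ : Set (Cp X) := {f | (∀ x, 0 ≤ f.1 x ∧ f.1 x ≤ 1) ∧ ∀ x ∈ T, f.1 x = 1}
  have hΦc : IsClosed Φ := by
    have h1 : IsClosed (⋂ x : X, ({f : Cp X | 0 ≤ f.1 x} ∩ {f : Cp X | f.1 x ≤ 1})) :=
      isClosed_iInter fun x => (isClosed_le continuous_const (hev x)).inter
        (isClosed_le (hev x) continuous_const)
    have h2 : IsClosed (⋂ x ∈ T, {f : Cp X | f.1 x = 1}) :=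
      isClosed_biInter fun x _ => isClosed_eq (hev x) continuous_const
    have h3 : Φ = (⋂ x : X, ({f : Cp X | 0 ≤ f.1 x} ∩ {f : Cp X | f.1 x ≤ 1})) ∩
        (⋂ x ∈ T, {f : Cp X | f.1 x = 1}) := by
      ext f
      simp only [Set.mem_inter_iff, Set.mem_iInter]
      exact Iff.rfl
    rw [h3]
    exact h1.inter h2
  have hΦL : IsLindelof Φ := hΦc.isLindelof
  refine omega_lemma (fun (f : Cp X) (x : X) => f.1 x) Φ hΦL
    ⟨⟨fun _ => 1, continuous_const⟩, fun _ => ⟨zero_le_one, le_rfl⟩, fun _ _ => rfl⟩ T hT S hS ?_ ?_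
  · intro A z hA hTA hz hSz hcoh
    obtain ⟨h, h01, hh⟩ := hLim A z hA (fun n x => (hz n).1 x) hSz hcoh
    refine ⟨h, ⟨h01, fun x hx => ?_⟩, hh⟩
    rw [hh 0 x (hTA 0 hx)]
    exact (hz 0).2 x hx
  · intro A hA hTA
    -- the points where `f` is big
    have hbig : ∀ f ∈ Φ, ∃ p, p ∉ closure A ∧ 1 / 4 < f.1 p := by
      intro f hf
      by_contra hno
      push Not at hno
      obtain ⟨x, hx, hx'⟩ := hcon A hA
        ⟨fun x => max 0 ((4 * f.1 x - 1) / 3), by have := f.2; fun_prop⟩
        (fun x => ⟨le_max_left _ _, max_le zero_le_one (by have := (hf.1 x).2; linarith)⟩)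
        (fun x hx => by
          show max 0 ((4 * f.1 x - 1) / 3) = 1
          rw [hf.2 x hx]; norm_num)
      apply hx'
      show max 0 ((4 * f.1 x - 1) / 3) = 0
      exact max_eq_left (by have := hno x hx; linarith)
    obtain ⟨r, hr, hrc⟩ := hΦL.elim_countable_subcover
      (fun p : {p : X // p ∉ closure A} => {f : Cp X | 1 / 4 < f.1 p.1})
      (fun p => isOpen_lt continuous_const (hev p.1))
      (by
        intro f hf
        obtain ⟨p, hp, hfp⟩ := hbig f hf
        exact Set.mem_iUnion.2 ⟨⟨p, hp⟩, hfp⟩)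
    let H : Set X := Subtype.val '' r
    have hHc : H.Countable := hr.image _
    have hHA : ∀ p ∈ H, p ∉ closure A := by
      rintro _ ⟨p, _, rfl⟩
      exact p.2
    have hHcov : ∀ f ∈ Φ, ∃ p ∈ H, 1 / 4 < f.1 p := by
      intro f hf
      obtain ⟨p, hp, hfp⟩ := Set.mem_iUnion₂.1 (hrc hf)
      exact ⟨p.1, ⟨p, hp, rfl⟩, hfp⟩
    have hsep : ∀ F : Finset X, (∀ p ∈ F, p ∉ closure A) → ∃ f : X → ℝ, Continuous f ∧
        (∀ x, 0 ≤ f x ∧ f x ≤ 1) ∧ (∀ x ∈ closure A, f x = 1) ∧ (∀ p ∈ F, f p = 0) := by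
      intro F
      induction F using Finset.induction_on with
      | empty =>
        intro _
        exact ⟨fun _ => 1, continuous_const, fun _ => ⟨zero_le_one, le_rfl⟩, fun _ _ => rfl,
          fun p hp => absurd hp (Finset.notMem_empty p)⟩
      | insert q F hq ih =>
        intro hF
        obtain ⟨f, hf, hf01, hfA, hfF⟩ := ih fun p hp => hF p (Finset.mem_insert_of_mem hp)
        obtain ⟨g, hg, hgq, hgA⟩ := CompletelyRegularSpace.completely_regular q (closure A)
          isClosed_closure (hF q (Finset.mem_insert_self _ _))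
        refine ⟨fun x => (g x : ℝ) * f x, by fun_prop, fun x => ?_, fun x hx => ?_, fun p hp => ?_⟩
        · have h1 := (g x).2.1
          have h2 := (g x).2.2
          have h3 := hf01 x
          exact ⟨mul_nonneg h1 h3.1, mul_le_one₀ h2 h3.1 h3.2⟩
        · have : g x = 1 := hgA hx
          simp [this, hfA x hx]
        · rcases Finset.mem_insert.1 hp with rfl | hp
          · simp [hgq]
          · simp [hfF p hp]
    have hHinf : H.Infinite := by
      intro hfin
      obtain ⟨f, hf, hf01, hfA, hfF⟩ := hsep hfin.toFinset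
        (fun p hp => hHA p ((Set.Finite.mem_toFinset hfin).1 hp))
      obtain ⟨p, hp, hfp⟩ := hHcov ⟨f, hf⟩
        ⟨hf01, fun x hx => hfA x (subset_closure (hTA hx))⟩
      have h0 := hfF p ((Set.Finite.mem_toFinset hfin).2 hp)
      have h1 : 1 / 4 < f p := hfp
      rw [h0] at h1
      norm_num at h1
    haveI := hHc.to_subtype
    haveI := hHinf.to_subtype
    obtain ⟨hden⟩ := nonempty_denumerable H
    let en : ℕ ≃ H := (Denumerable.eqv H).symm
    let p : ℕ → X := fun i => (en i : X)
    have hpH : ∀ i, p i ∈ H := fun i => (en i).2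
    have hpinj : Function.Injective p := fun i j h => en.injective (Subtype.ext h)
    have hpsurj : ∀ q ∈ H, ∃ i, p i = q := by
      intro q hq
      refine ⟨en.symm ⟨q, hq⟩, ?_⟩
      show ((en (en.symm ⟨q, hq⟩)) : X) = q
      rw [Equiv.apply_symm_apply]
    refine ⟨fun i => {f : Cp X | 1 / 4 < f.1 (p i)} ∩ ⋂ k ∈ Finset.range i,
      {f : Cp X | f.1 (p k) < 1 / 3}, fun i => ?_, ?_, H, hHc, ?_⟩
    · exact (isOpen_lt continuous_const (hev _)).inter
        (isOpen_biInter_finset fun k _ => isOpen_lt (hev _) continuous_const)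
    · intro f hf
      obtain ⟨q, hq, hfq⟩ := hHcov f hf
      obtain ⟨i0, rfl⟩ := hpsurj q hq
      have hex : ∃ i, 1 / 4 < f.1 (p i) := ⟨i0, hfq⟩
      refine Set.mem_iUnion.2 ⟨Nat.find hex, Nat.find_spec hex, ?_⟩
      refine Set.mem_iInter₂.2 fun k hk => ?_
      have := Nat.find_min hex (Finset.mem_range.1 hk)
      show f.1 (p k) < 1 / 3
      push Not at this
      linarith
    · intro z hz i
      obtain ⟨u, hu, hu01, huA, huF⟩ := hsep ((Finset.range (i + 1)).image p) (by
        intro q hq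
        obtain ⟨k, _, rfl⟩ := Finset.mem_image.1 hq
        exact hHA _ (hpH k))
      have hK : IsClosed (closure A ∪ ((Finset.range i).image p : Set X)) :=
        isClosed_closure.union (Finset.finite_toSet _).isClosed
      have hpK : p i ∉ (closure A ∪ ((Finset.range i).image p : Set X)) := by
        rintro (h | h)
        · exact hHA _ (hpH i) h
        · obtain ⟨k, hk, hkp⟩ := Finset.mem_image.1 (Finset.mem_coe.1 h)
          have := hpinj hkp
          rw [this] at hk
          exact lt_irrefl _ (Finset.mem_range.1 hk)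
      obtain ⟨g, hg, hgp, hgK⟩ := CompletelyRegularSpace.completely_regular (p i) _ hK hpK
      have hg01 : ∀ x, 0 ≤ (g x : ℝ) ∧ (g x : ℝ) ≤ 1 := fun x => (g x).2
      let z' : Cp X := ⟨fun x => min 1 (z.1 x * u x + (1 - (g x : ℝ))), by
        have := z.2
        fun_prop⟩
      have hz'val : ∀ x, z'.1 x = min 1 (z.1 x * u x + (1 - (g x : ℝ))) := fun x => rfl
      have hz'A : ∀ x ∈ closure A, z'.1 x = z.1 x := by
        intro x hx
        have h1 : g x = 1 := hgK (Or.inl hx)
        rw [hz'val, huA x hx, h1]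
        simp [(hz.1 x).2]
      have hz'k : ∀ k, k < i → z'.1 (p k) = 0 := by
        intro k hk
        have h1 : g (p k) = 1 := hgK (Or.inr (Finset.mem_coe.2
          (Finset.mem_image_of_mem p (Finset.mem_range.2 hk))))
        have h2 : u (p k) = 0 := huF _ (Finset.mem_image_of_mem p (Finset.mem_range.2 (by omega)))
        rw [hz'val, h1, h2]
        simp
      have hz'i : z'.1 (p i) = 1 := by
        have h2 : u (p i) = 0 := huF _ (Finset.mem_image_of_mem p (Finset.mem_range.2 (by omega)))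
        rw [hz'val, hgp, h2]
        simp
      have hz'Φ : z' ∈ Φ := by
        refine ⟨fun x => ⟨?_, ?_⟩, fun x hx => ?_⟩
        · rw [hz'val]
          refine le_min zero_le_one ?_
          have h1 := (hg01 x).2
          have h2 := mul_nonneg (hz.1 x).1 (hu01 x).1
          linarith
        · rw [hz'val]; exact min_le_left _ _
        · rw [hz'A x (subset_closure (hTA hx))]
          exact hz.2 x hx
      refine ⟨z', hz'Φ, fun x hx => hz'A x (subset_closure hx), ?_⟩
      intro f hf hfQ i' hi' hfG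
      rcases lt_or_gt_of_ne hi' with hlt | hgt
      · have h1 : 1 / 4 < f.1 (p i') := hfG.1
        have h2 : f.1 (p i') = z'.1 (p i') := hfQ _ (hpH i')
        rw [h2, hz'k i' hlt] at h1
        norm_num at h1
      · have h1 : f.1 (p i) < 1 / 3 := Set.mem_iInter₂.1 hfG.2 i (Finset.mem_range.2 hgt)
        have h2 : f.1 (p i) = z'.1 (p i) := hfQ _ (hpH i)
        rw [h2, hz'i] at h1
        norm_num at h1

end Pool.Agent.Helper425.FA
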