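import Mathlib
import Pool.Agent.Helper425.FA.Basic

set_option autoImplicit false


open Set Topology Filter

namespace Pool.Agent.Helper425.FA





theorem exists_support_aux (X : Type) [TopologicalSpace X] [LindelofSpace (Cp X)]
    (v : Cp X → ℝ) (hv : Continuous v) : ∃ S : Set X, S.Countable ∧
      ∀ g g' : Cp X, (∀ s ∈ S, g.1 s = g'.1 s) → v g = v g' := by
  classical
  have h1 : ∀ n : ℕ, ∀ g : Cp X, ∃ I : Finset X, ∃ W : Set (Cp X), IsOpen W ∧ g ∈ W ∧
      (∀ g' ∈ W, |v g' - v g| < 1 / ((n : ℝ) + 1)) ∧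
      ∀ g1 g2 : Cp X, (∀ s ∈ I, g1.1 s = g2.1 s) → g1 ∈ W → g2 ∈ W := by
    intro n g
    have hopen : IsOpen (v ⁻¹' (Metric.ball (v g) (1 / ((n : ℝ) + 1)))) :=
      Metric.isOpen_ball.preimage hv
    obtain ⟨U, hU, hUe⟩ := isOpen_induced_iff.mp hopen
    have hgU : g.1 ∈ U := by
      have : g ∈ Subtype.val ⁻¹' U := by
        rw [hUe]
        exact Metric.mem_ball_self (by positivity)
      exact this
    obtain ⟨I, u, hu1, hu2⟩ := isOpen_pi_iff.mp hU g.1 hgU
    refine ⟨I, Subtype.val ⁻¹' ((I : Set X).pi u), ?_, ?_, ?_, ?_⟩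
    · exact (isOpen_set_pi I.finite_toSet fun a ha => (hu1 a ha).1).preimage continuous_subtype_val
    · exact fun a ha => (hu1 a ha).2
    · intro g' hg'
      have h2 : g' ∈ Subtype.val ⁻¹' U := hu2 hg'
      rw [hUe] at h2
      have h3 : dist (v g') (v g) < 1 / ((n : ℝ) + 1) := h2
      rwa [Real.dist_eq] at h3
    · intro g1 g2 h12 hg1 a ha
      have := hg1 a ha
      rw [← h12 a ha]
      exact this
  choose I W hW1 hW2 hW3 hW4 using h1
  have h2 : ∀ n : ℕ, ∃ t : Set (Cp X), t.Countable ∧ (⋃ g ∈ t, W n g) = univ := fun n =>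
    LindelofSpace.elim_nhds_subcover (W n) fun g => (hW1 n g).mem_nhds (hW2 n g)
  choose t ht1 ht2 using h2
  refine ⟨⋃ n, ⋃ g ∈ t n, (I n g : Set X), ?_, ?_⟩
  · exact countable_iUnion fun n => (ht1 n).biUnion fun g _ => (I n g).countable_toSet
  · intro g g' hgg
    by_contra hne
    have hpos : 0 < |v g - v g'| := abs_pos.mpr (sub_ne_zero.mpr hne)
    obtain ⟨n, hn⟩ := exists_nat_one_div_lt (half_pos hpos)
    have hg : g ∈ ⋃ g ∈ t n, W n g := by rw [ht2 n]; trivial
    obtain ⟨k, hk, hgk⟩ := mem_iUnion₂.mp hg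
    have hg' : g' ∈ W n k := hW4 n k g g' (fun s hs => hgg s
      (mem_iUnion.mpr ⟨n, mem_iUnion₂.mpr ⟨k, hk, hs⟩⟩)) hgk
    have h3 := hW3 n k g hgk
    have h4 := hW3 n k g' hg'
    have h5 : |v g - v g'| ≤ |v g - v k| + |v g' - v k| := by
      have : v g - v g' = (v g - v k) - (v g' - v k) := by ring
      rw [this]
      exact abs_sub _ _
    linarith

/-- TARGET: prove this.
Proof. For `ε = 1/(m+1)` the set `P_m = {h : Cp X | ε ≤ |h x - f x|}` is closed, so Lindelöf. For `h ∈ P_m`, `φ h ≠ φ f`, so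
(complete regularity of `Y`) there is a continuous `u_h : Y → ℝ` with `u_h (φ h) ≠ u_h (φ f)`; countably many open sets
`{g | u_h (φ g) ≠ u_h (φ f)}` cover `P_m`. So there is a countable set `𝒰` of continuous functions `Y → ℝ` such that
`(∀ u ∈ 𝒰, u (φ h) = u (φ f)) → h x = f x`.
For every continuous `v : Cp X → ℝ` there is a countable `S_v ⊆ X` with `v g = v g'` whenever `g = g'` on `S_v`: for each `n`
cover `Cp X` by basic open sets (given by finitely many points of `X`) on which `v` varies by less than `1/(n+1)`,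
take a countable subcover (Lindelöf), and let `S_v` be the union of all the finite sets. Take `S = ⋃_{u ∈ 𝒰} S_{u ∘ φ}`.
If `φ h` is in the closure of `φ '' {g | g = f on S}` then `u (φ h) = u (φ f)` for `u ∈ 𝒰`, because `u` is constant on that set. -/
theorem exists_support (X Y : Type) [TopologicalSpace X] [TopologicalSpace Y] [T35Space Y]
    [LindelofSpace (Cp X)] (φ : Cp X → Y) (hφ : Continuous φ) (hinj : Function.Injective φ)
    (f : Cp X) (x : X) : ∃ S : Set X, S.Countable ∧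
      ∀ h : Cp X, φ h ∈ closure (φ '' {g | ∀ s ∈ S, g.1 s = f.1 s}) → h.1 x = f.1 x := by
  classical
  have h1 : ∀ h : Cp X, ∃ u : Y → ℝ, Continuous u ∧ (h.1 x ≠ f.1 x → u (φ h) ≠ u (φ f)) := by
    intro h
    by_cases hx : h.1 x = f.1 x
    · exact ⟨fun _ => 0, continuous_const, fun h' => absurd hx h'⟩
    · have hne : φ h ≠ φ f := by
        intro h2
        exact hx (by rw [hinj h2])
      obtain ⟨u, hu, hu2⟩ := separatesPoints_continuous_of_t35Space (X := Y) hne
      exact ⟨u, hu, fun _ => hu2⟩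
  choose u hu1 hu2 using h1
  have h2 : ∀ m : ℕ, ∃ t : Set (Cp X), t.Countable ∧
      (∀ h ∈ t, 1 / ((m : ℝ) + 1) ≤ |h.1 x - f.1 x|) ∧
      {h : Cp X | 1 / ((m : ℝ) + 1) ≤ |h.1 x - f.1 x|} ⊆
        ⋃ h ∈ t, {g : Cp X | u h (φ g) ≠ u h (φ f)} := by
    intro m
    have hcl : IsClosed {h : Cp X | 1 / ((m : ℝ) + 1) ≤ |h.1 x - f.1 x|} := by
      refine isClosed_le continuous_const ?_
      have : Continuous fun h : Cp X => h.1 x := (continuous_apply x).comp continuous_subtype_val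
      exact (this.sub continuous_const).abs
    obtain ⟨t, ht1, ht2, ht3⟩ := hcl.isLindelof.elim_nhds_subcover
      (fun h => {g : Cp X | u h (φ g) ≠ u h (φ f)}) (by
        intro h hh
        have hpos : (0:ℝ) < 1 / ((m : ℝ) + 1) := by positivity
        have hne : h.1 x ≠ f.1 x := by
          intro h3
          have h4 : 1 / ((m : ℝ) + 1) ≤ |h.1 x - f.1 x| := hh
          rw [h3, sub_self, abs_zero] at h4
          linarith
        refine IsOpen.mem_nhds ?_ (hu2 h hne)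
        exact isOpen_ne_fun ((hu1 h).comp hφ) continuous_const)
    exact ⟨t, ht1, ht2, ht3⟩
  choose t ht1 ht2 ht3 using h2
  have h3 : ∀ h : Cp X, ∃ S : Set X, S.Countable ∧
      ∀ g g' : Cp X, (∀ s ∈ S, g.1 s = g'.1 s) → u h (φ g) = u h (φ g') := fun h =>
    exists_support_aux X (fun g => u h (φ g)) ((hu1 h).comp hφ)
  choose T hT1 hT2 using h3
  refine ⟨⋃ m, ⋃ h ∈ t m, T h, countable_iUnion fun m => (ht1 m).biUnion fun h _ => hT1 h, ?_⟩
  intro h hh
  by_contra hne
  have hpos : 0 < |h.1 x - f.1 x| := abs_pos.mpr (sub_ne_zero.mpr hne)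
  obtain ⟨m, hm⟩ := exists_nat_one_div_lt hpos
  obtain ⟨h', hh', hmem⟩ := mem_iUnion₂.mp (ht3 m (show 1 / ((m : ℝ) + 1) ≤ |h.1 x - f.1 x| from hm.le))
  apply hmem
  have hcl : IsClosed {y : Y | u h' y = u h' (φ f)} := isClosed_eq (hu1 h') continuous_const
  have hsub : φ '' {g | ∀ s ∈ ⋃ m, ⋃ h ∈ t m, T h, g.1 s = f.1 s} ⊆ {y : Y | u h' y = u h' (φ f)} := by
    rintro _ ⟨g, hg, rfl⟩
    exact hT2 h' g f fun s hs => hg s (mem_iUnion.mpr ⟨m, mem_iUnion₂.mpr ⟨h', hh', hs⟩⟩)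
  exact closure_minimal hsub hcl hh

end Pool.Agent.Helper425.FA
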