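import Mathlib
import Pool.Agent.Helper425.FA.Basic

set_option autoImplicit false

namespace Pool.Agent.Helper425.FA


open Set Topology Filter


/-- the embedding of the Cantor space in `[0,1]` -/
noncomputable def zdc (y : ℕ → Bool) : ℝ := (cantorSetHomeomorphNatToBool.symm y : ℝ)

lemma zdc_cont : Continuous zdc :=
  continuous_subtype_val.comp cantorSetHomeomorphNatToBool.symm.continuous

lemma zdc_inj : Function.Injective zdc :=
  Subtype.val_injective.comp cantorSetHomeomorphNatToBool.symm.injective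

lemma zdc_mem (y : ℕ → Bool) : 0 ≤ zdc y ∧ zdc y ≤ 1 := by
  have := cantorSet_subset_unitInterval (cantorSetHomeomorphNatToBool.symm y).2
  exact ⟨this.1, this.2⟩

/-- the closed embedding of `ℕ × Cantor` in `ℝ` -/
noncomputable def zdE (p : ℕ × (ℕ → Bool)) : ℝ := 2 * (p.1 : ℝ) + zdc p.2

lemma zdE_cont : Continuous zdE := by
  unfold zdE
  have h1 : Continuous (fun p : ℕ × (ℕ → Bool) => ((p.1 : ℕ) : ℝ)) :=
    (continuous_of_discreteTopology (f := fun n : ℕ => (n : ℝ))).comp continuous_fst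
  exact (continuous_const.mul h1).add (zdc_cont.comp continuous_snd)

lemma zdE_inj : Function.Injective zdE := by
  rintro ⟨N, y⟩ ⟨M, z⟩ h
  simp only [zdE] at h
  have h1 := zdc_mem y
  have h2 := zdc_mem z
  have hNM : N = M := by
    by_contra hne
    rcases Nat.lt_or_gt_of_ne hne with hlt | hlt
    · have : (N : ℝ) + 1 ≤ M := by exact_mod_cast hlt
      linarith
    · have : (M : ℝ) + 1 ≤ N := by exact_mod_cast hlt
      linarith
  subst hNM
  have : zdc y = zdc z := by linarith
  rw [zdc_inj this]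

lemma zdE_closed : IsClosedEmbedding zdE := by
  have hp : IsProperMap zdE := by
    rw [isProperMap_iff_isCompact_preimage]
    refine ⟨zdE_cont, fun K hK => ?_⟩
    obtain ⟨R, hR⟩ := hK.isBounded.subset_closedBall 0
    obtain ⟨M, hM⟩ := exists_nat_gt R
    have hc : IsCompact ((Set.Iic M : Set ℕ) ×ˢ (Set.univ : Set (ℕ → Bool))) :=
      (Set.finite_Iic M).isCompact.prod isCompact_univ
    refine hc.of_isClosed_subset (hK.isClosed.preimage zdE_cont) ?_
    rintro ⟨N, y⟩ hy
    refine ⟨?_, Set.mem_univ _⟩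
    have h1 := hR hy
    rw [Metric.mem_closedBall, dist_zero_right, Real.norm_eq_abs] at h1
    have h2 := (abs_le.mp h1).2
    have h3 := zdc_mem y
    simp only [zdE] at h2
    show N ≤ M
    by_contra hlt
    have h4 : (M : ℝ) + 1 ≤ N := by exact_mod_cast (not_le.mp hlt)
    have h5 : (0 : ℝ) ≤ M := Nat.cast_nonneg M
    linarith
  exact IsClosedEmbedding.of_continuous_injective_isClosedMap zdE_cont zdE_inj hp.isClosedMap

/-- the decoding of digits -/
noncomputable def zdS (y : ℕ → Bool) : ℝ := ∑' n, (1 / 3 : ℝ) * (2 / 3) ^ n * (if y n then 1 else 0)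

lemma zdS_summable : Summable (fun n : ℕ => (1 / 3 : ℝ) * (2 / 3) ^ n) :=
  (summable_geometric_of_lt_one (by norm_num) (by norm_num)).mul_left _

lemma zdS_cont : Continuous zdS := by
  unfold zdS
  refine continuous_tsum (fun n => ?_) zdS_summable (fun n y => ?_)
  · refine continuous_const.mul ?_
    exact (continuous_of_discreteTopology (f := fun b : Bool => if b then (1:ℝ) else 0)).comp
      (continuous_apply n)
  · rw [Real.norm_eq_abs, abs_of_nonneg (by positivity)]
    split_ifs
    · simp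
    · simp; positivity

section
variable {X : Type} [TopologicalSpace X]
  (hX : ∀ f : C(X, ℝ), ∃ W : Set X, IsClopen W ∧ {x | f x ≤ 0} ⊆ W ∧ W ⊆ {x | f x < 1})
include hX

lemma zd_step (t : {t : C(X, ℝ) // ∀ x, 0 ≤ t x ∧ t x ≤ 1}) :
    ∃ (W : Set X) (t' : {t : C(X, ℝ) // ∀ x, 0 ≤ t x ∧ t x ≤ 1}), IsClopen W ∧
      ∀ x, t.1 x = (1 / 3 : ℝ) * W.indicator 1 x + (2 / 3) * t'.1 x := by
  obtain ⟨t, ht⟩ := t
  obtain ⟨W, hW, h1, h2⟩ := hX ⟨fun x => (2 / 3 - t x) * 3, by fun_prop⟩
  have hc : Continuous (W.indicator (1 : X → ℝ)) :=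
    (continuous_one).indicator (by
      intro a ha
      rw [hW.frontier_eq] at ha
      exact absurd ha (Set.notMem_empty a))
  refine ⟨W, ⟨⟨fun x => (3 / 2) * (t x - (1 / 3) * W.indicator 1 x), ?_⟩, fun x => ?_⟩, hW,
    fun x => ?_⟩
  · exact continuous_const.mul (t.continuous.sub (continuous_const.mul hc))
  · have h0 := ht x
    by_cases hx : x ∈ W
    · have h3 := h2 hx
      simp only [ContinuousMap.coe_mk, Set.mem_setOf_eq] at h3
      simp only [ContinuousMap.coe_mk, Set.indicator_of_mem hx, Pi.one_apply]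
      constructor <;> linarith
    · have h3 : ¬ ((2 / 3 - t x) * 3 ≤ 0) := fun h => hx (h1 h)
      simp only [ContinuousMap.coe_mk, Set.indicator_of_notMem hx]
      constructor <;> linarith
  · simp only [ContinuousMap.coe_mk]
    ring

lemma zd_digits (t : C(X, ℝ)) (ht : ∀ x, 0 ≤ t x ∧ t x ≤ 1) :
    ∃ b : X → ℕ → Bool, Continuous b ∧ ∀ x, zdS (b x) = t x := by
  classical
  choose W nx hW hnx using zd_step hX
  let T : ℕ → {t : C(X, ℝ) // ∀ x, 0 ≤ t x ∧ t x ≤ 1} := fun n => nx^[n] ⟨t, ht⟩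
  have hT : ∀ n, T (n + 1) = nx (T n) := fun n => Function.iterate_succ_apply' nx n _
  refine ⟨fun x n => decide (x ∈ W (T n)), ?_, fun x => ?_⟩
  · refine continuous_pi fun n => ?_
    refine (IsLocallyConstant.iff_continuous _).mp ?_
    rw [IsLocallyConstant.iff_isOpen_fiber]
    intro b
    cases b
    · have : {x | decide (x ∈ W (T n)) = false} = (W (T n))ᶜ := by ext x; simp
      rw [show (fun x => decide (x ∈ W (T n))) ⁻¹' {false} = (W (T n))ᶜ from this]
      exact (hW (T n)).compl.isOpen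
    · have : {x | decide (x ∈ W (T n)) = true} = (W (T n)) := by ext x; simp
      rw [show (fun x => decide (x ∈ W (T n))) ⁻¹' {true} = (W (T n)) from this]
      exact (hW (T n)).isOpen
  · have key : ∀ n, t x = ∑ i ∈ Finset.range n, (1 / 3 : ℝ) * (2 / 3) ^ i *
        (if decide (x ∈ W (T i)) then 1 else 0) + (2 / 3) ^ n * (T n).1 x := by
      intro n
      induction n with
      | zero => simp [T]
      | succ n ih =>
        rw [Finset.sum_range_succ, hT]
        have h1 := hnx (T n) x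
        have h2 : (W (T n)).indicator (1 : X → ℝ) x = (if decide (x ∈ W (T n)) then 1 else 0) := by
          by_cases hx : x ∈ W (T n)
          · simp [hx]
          · simp [hx]
        rw [h2] at h1
        rw [ih, h1]
        ring
    have hs : HasSum (fun n : ℕ => (1 / 3 : ℝ) * (2 / 3) ^ n *
        (if decide (x ∈ W (T n)) then 1 else 0)) (t x) := by
      rw [hasSum_iff_tendsto_nat_of_nonneg (fun i => by positivity)]
      have h3 : Filter.Tendsto (fun n => (2 / 3 : ℝ) ^ n * (T n).1 x) Filter.atTop (nhds 0) := by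
        refine squeeze_zero (fun n => mul_nonneg (by positivity) ((T n).2 x).1) (fun n => ?_)
          (tendsto_pow_atTop_nhds_zero_of_lt_one (r := (2/3 : ℝ)) (by norm_num) (by norm_num))
        calc (2 / 3 : ℝ) ^ n * (T n).1 x ≤ (2 / 3 : ℝ) ^ n * 1 :=
              mul_le_mul_of_nonneg_left ((T n).2 x).2 (by positivity)
          _ = (2 / 3 : ℝ) ^ n := mul_one _
      have h4 : Filter.Tendsto (fun n => t x - (2 / 3 : ℝ) ^ n * (T n).1 x) Filter.atTop
          (nhds (t x - 0)) := tendsto_const_nhds.sub h3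
      rw [sub_zero] at h4
      refine h4.congr (fun n => ?_)
      rw [key n]
      ring
    exact hs.tsum_eq

lemma zd_floor (f : C(X, ℝ)) : ∃ k : X → ℤ, Continuous k ∧ ∀ x, |f x - k x| ≤ 1 := by
  classical
  have h : ∀ n : ℤ, ∃ V : Set X, IsClopen V ∧ {x | f x ≤ n} ⊆ V ∧ V ⊆ {x | f x < n + 1} := by
    intro n
    obtain ⟨V, hV, h1, h2⟩ := hX ⟨fun x => f x - n, by fun_prop⟩
    refine ⟨V, hV, fun x hx => h1 ?_, fun x hx => ?_⟩
    · have : f x ≤ n := hx
      show f x - n ≤ 0
      linarith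
    · have h3 : f x - n < 1 := h2 hx
      show f x < n + 1
      linarith
  choose V hV h1 h2 using h
  let k : X → ℤ := fun x => if x ∈ V ⌊f x⌋ then ⌊f x⌋ else ⌊f x⌋ + 1
  have hk : ∀ n, k ⁻¹' {n} = V n \ V (n - 1) := by
    intro n
    ext x
    simp only [Set.mem_preimage, Set.mem_singleton_iff, Set.mem_diff, k]
    have f1 := Int.floor_le (f x)
    have f2 := Int.lt_floor_add_one (f x)
    constructor
    · intro hx
      split_ifs at hx with hc
      · subst hx
        refine ⟨hc, fun h3 => ?_⟩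
        have h4 : f x < ((⌊f x⌋ - 1 : ℤ) : ℝ) + 1 := h2 _ h3
        push_cast at h4
        linarith
      · subst hx
        refine ⟨h1 _ ?_, ?_⟩
        · show f x ≤ ((⌊f x⌋ + 1 : ℤ) : ℝ)
          push_cast
          linarith
        · rwa [add_sub_cancel_right]
    · rintro ⟨ha, hb⟩
      have h3 : f x < (n : ℝ) + 1 := h2 _ ha
      have h4 : ((n - 1 : ℤ) : ℝ) < f x := by
        by_contra hc
        exact hb (h1 _ (not_lt.mp hc))
      have h5 : ⌊f x⌋ < n + 1 := by
        rw [Int.floor_lt]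
        push_cast
        exact h3
      have h6 : n - 1 ≤ ⌊f x⌋ := Int.le_floor.mpr h4.le
      have h7 : ⌊f x⌋ = n ∨ ⌊f x⌋ = n - 1 := by omega
      rcases h7 with h7 | h7
      · rw [h7, if_pos ha]
      · rw [h7, if_neg hb]
        ring
  refine ⟨k, ?_, fun x => ?_⟩
  · refine (IsLocallyConstant.iff_continuous _).mp ?_
    rw [IsLocallyConstant.iff_isOpen_fiber]
    intro n
    rw [hk]
    exact ((hV n).diff (hV (n - 1))).isOpen
  · have f1 := Int.floor_le (f x)
    have f2 := Int.lt_floor_add_one (f x)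
    rw [abs_le]
    simp only [k]
    split_ifs with hc
    · constructor <;> linarith
    · push_cast
      constructor <;> linarith

lemma zd_rep (f : C(X, ℝ)) : ∃ (k : X → ℤ) (b : X → ℕ → Bool), Continuous k ∧ Continuous b ∧
    ∀ x, f x = k x + 2 * zdS (b x) - 1 := by
  obtain ⟨k, hk, h1⟩ := zd_floor hX f
  have hkc : Continuous (fun x => (k x : ℝ)) :=
    (continuous_of_discreteTopology (f := fun n : ℤ => (n : ℝ))).comp hk
  obtain ⟨b, hb, h2⟩ := zd_digits hX ⟨fun x => (f x - k x + 1) / 2, by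
    exact ((f.continuous.sub hkc).add continuous_const).div_const 2⟩ (fun x => by
    have := abs_le.mp (h1 x)
    simp only [ContinuousMap.coe_mk]
    constructor <;> linarith)
  refine ⟨k, b, hk, hb, fun x => ?_⟩
  rw [h2 x]
  simp only [ContinuousMap.coe_mk]
  ring

end

/-- TARGET. One real function codes two, over strongly zero-dimensional spaces, by one fixed decoding.
Proof. (1) For `t : C(X, ℝ)` with values in `[0,1]` there are clopen `W n` with `t = ∑' n, (1/3) * (2/3)^n * 1_{W n}`: greedy: `t 0 = t`; given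
`t n` with values in `[0,1]`, `hX` gives a clopen `W n` with `{t n ≥ 2/3} ⊆ W n ⊆ {t n > 1/3}`; `t (n+1) = (3/2) * (t n - (1/3) * 1_{W n})` has values in `[0,1]` and is continuous;
`t = ∑_{i<n} (1/3)(2/3)^i 1_{W i} + (2/3)^n t n`.
(2) For `f : C(X, ℝ)` there is a continuous (locally constant) `k : X → ℤ` with `|f - k| ≤ 1`: clopen `V n`, `n : ℤ`, with `{f ≤ n} ⊆ V n ⊆ {f < n+1}`, they
increase with `n`, `k x = ` least `n` with `x ∈ V n`. So `f = k + 2 t - 1` with `t` as in (1).
(3) `E : ℕ × (ℕ → Bool) → ℝ`, `E (N, x) = 2 N + ∑' n, 2 * (1/3)^(n+1) * x n` is a closed embedding (injective, continuous, `E (N, x) ∈ [2N, 2N+1]`, compact pieces, locally finite). Fix a bijection (Encodable/Denumerable)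
`ℕ ≃ ℤ × ℤ`, `N ↦ (k1 N, k2 N)`. Put `s1 (N, x) = k1 N + 2 * ∑' n, (1/3) * (2/3)^n * x (2n) - 1`, `s2 (N, x) = k2 N + 2 * ∑' n, (1/3) * (2/3)^n * x (2n+1) - 1` (continuous), and extend `s1, s2` by Tietze
(`ContinuousMap.exists_extension'` for the closed embedding `E` into the normal space `ℝ`) to `σ1, σ2 : C(ℝ, ℝ)`.
(4) Given `f, g` take `k, t, W` and `k', t', W'` from (1),(2) and `d = E (N(x), digits)`, where `N x` codes `(k x, k' x)` and the digits at `2n`, `2n+1` are those of `W n`, `W' n`. -/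
theorem zd_coding : ∃ σ1 σ2 : C(ℝ, ℝ), ∀ (X : Type) [TopologicalSpace X],
    (∀ f : C(X, ℝ), ∃ W : Set X, IsClopen W ∧ {x | f x ≤ 0} ⊆ W ∧ W ⊆ {x | f x < 1}) →
    ∀ f g : C(X, ℝ), ∃ d : C(X, ℝ), ∀ x, σ1 (d x) = f x ∧ σ2 (d x) = g x := by
  classical
  let e : ℕ ≃ ℤ × ℤ := (Denumerable.eqv (ℤ × ℤ)).symm
  let r : ℕ ⊕ ℕ ≃ ℕ := Equiv.natSumNatEquivNat
  let s1 : C(ℕ × (ℕ → Bool), ℝ) := ⟨fun p => ((e p.1).1 : ℝ) +
    2 * zdS (fun n => p.2 (r (Sum.inl n))) - 1, by
      refine (Continuous.add ?_ (continuous_const.mul (zdS_cont.comp ?_))).sub continuous_const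
      · exact (continuous_of_discreteTopology (f := fun n : ℕ => ((e n).1 : ℝ))).comp continuous_fst
      · exact continuous_pi fun n => (continuous_apply _).comp continuous_snd⟩
  let s2 : C(ℕ × (ℕ → Bool), ℝ) := ⟨fun p => ((e p.1).2 : ℝ) +
    2 * zdS (fun n => p.2 (r (Sum.inr n))) - 1, by
      refine (Continuous.add ?_ (continuous_const.mul (zdS_cont.comp ?_))).sub continuous_const
      · exact (continuous_of_discreteTopology (f := fun n : ℕ => ((e n).2 : ℝ))).comp continuous_fst
      · exact continuous_pi fun n => (continuous_apply _).comp continuous_snd⟩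
  obtain ⟨σ1, h1⟩ := ContinuousMap.exists_extension' zdE_closed s1
  obtain ⟨σ2, h2⟩ := ContinuousMap.exists_extension' zdE_closed s2
  refine ⟨σ1, σ2, fun X _ hX f g => ?_⟩
  obtain ⟨k, b, hk, hb, hf⟩ := zd_rep hX f
  obtain ⟨k', b', hk', hb', hg⟩ := zd_rep hX g
  let D : X → ℕ × (ℕ → Bool) := fun x => (e.symm (k x, k' x),
    fun n => Sum.elim (b x) (b' x) (r.symm n))
  have hD : Continuous D := by
    refine Continuous.prodMk ?_ (continuous_pi fun n => ?_)
    · exact (continuous_of_discreteTopology (f := fun q : ℤ × ℤ => e.symm q)).comp (hk.prodMk hk')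
    · rcases hn : r.symm n with m | m
      · simp only [Sum.elim_inl]
        exact (continuous_apply m).comp hb
      · simp only [Sum.elim_inr]
        exact (continuous_apply m).comp hb'
  refine ⟨⟨fun x => zdE (D x), zdE_cont.comp hD⟩, fun x => ⟨?_, ?_⟩⟩
  · have := congrFun h1 (D x)
    simp only [Function.comp_apply] at this
    simp only [ContinuousMap.coe_mk]
    rw [this, hf x]
    simp [s1, D]
  · have := congrFun h2 (D x)
    simp only [Function.comp_apply] at this
    simp only [ContinuousMap.coe_mk]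
    rw [this, hg x]
    simp [s2, D]

end Pool.Agent.Helper425.FA
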