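import Mathlib
import Pool.Agent.Helper425.FA.SepC
import Pool.Agent.Helper425.FA.CaseI
import Pool.Agent.Helper425.FA.CaseII
import Pool.Agent.Helper425.FA.Support
import Pool.Agent.Helper425.FA.Limit
import Pool.Agent.Helper425.FA.Baire
import Pool.Agent.Helper425.FA.CosmicSq
import Pool.Agent.Helper425.FA.Zd

set_option autoImplicit false

open Set Topology Filter

namespace Pool.Agent.Helper425.FA

/-- main theorem: separability -/
theorem separable_of_condense (X Y : Type) [TopologicalSpace X] [T35Space X] [TopologicalSpace Y]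
    [T35Space Y] [LindelofSpace (Cp X)] [SigmaCompactSpace Y] (φ : Cp X → Y) (hφ : Continuous φ)
    (hb : Function.Bijective φ) : ∃ A : Set X, A.Countable ∧ Dense A := by
  classical
  -- compact cover
  let K : ℕ → Set Y := compactCovering Y
  have hKc : ∀ n, IsCompact (K n) := isCompact_compactCovering Y
  have hKm : Monotone K := compactCovering_subset Y
  have hKU : ∀ y : Y, ∃ n, y ∈ K n := fun y => by
    have : y ∈ ⋃ n, K n := by
      rw [iUnion_compactCovering]; trivial
    simpa using this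
  obtain ⟨k0, f0, ε, hε, hball⟩ := baire_lemma X (fun n => φ ⁻¹' (K n))
    (fun n => (hKc n).isClosed.preimage hφ) (fun f => hKU (φ f))
  -- renormalize
  let τ : Cp X → Cp X := fun f => ⟨fun x => f0.1 x + ε * f.1 x, f0.2.add (f.2.const_mul ε)⟩
  have hτc : Continuous τ := by
    refine Continuous.subtype_mk ?_ _
    refine continuous_pi fun x => ?_
    exact continuous_const.add (continuous_const.mul ((continuous_apply x).comp continuous_subtype_val))
  have hτb : Function.Bijective τ := by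
    constructor
    · intro f g hfg
      apply Subtype.ext
      funext x
      have h1 : f0.1 x + ε * f.1 x = f0.1 x + ε * g.1 x := congrFun (congrArg Subtype.val hfg) x
      have h2 : ε * f.1 x = ε * g.1 x := by linarith
      exact mul_left_cancel₀ hε.ne' h2
    · intro g
      refine ⟨⟨fun x => (g.1 x - f0.1 x) / ε, (g.2.sub f0.2).div_const ε⟩, ?_⟩
      apply Subtype.ext
      funext x
      show f0.1 x + ε * ((g.1 x - f0.1 x) / ε) = g.1 x
      field_simp
      ring
  let ψ : Cp X → Y := φ ∘ τ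
  have hψc : Continuous ψ := hφ.comp hτc
  have hψb : Function.Bijective ψ := hb.comp hτb
  have hB : ∀ f : Cp X, (∀ x, |f.1 x| ≤ 1) → ψ f ∈ K k0 := by
    intro f hf
    refine hball (τ f) fun x => ?_
    show |f0.1 x + ε * f.1 x - f0.1 x| ≤ ε
    rw [add_sub_cancel_left, abs_mul, abs_of_pos hε]
    nlinarith [hf x]
  have hex := exists_support X Y ψ hψc hψb.1
  choose S hSc hS using hex
  have hlimK : ∀ (n : ℕ) (A : ℕ → Set X) (z : ℕ → Cp X), Monotone A →
      (∀ i, z i ∈ ψ ⁻¹' (K n)) →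
      (∀ n, ∀ x ∈ A n, S (z n) x ⊆ A n) →
      (∀ n m, n ≤ m → ∀ x ∈ A n, (z m).1 x = (z n).1 x) →
      ∃ h : Cp X, h ∈ ψ ⁻¹' (K n) ∧ ∀ n, ∀ x ∈ A n, h.1 x = (z n).1 x :=
    fun n A z _ hz hcl hco => limit_lemma X Y ψ hψb.2 (K n) (hKc n) S hS A z hz hcl hco
  have hLim0 : ∀ (A : ℕ → Set X) (z : ℕ → Cp X), Monotone A →
      (∀ n x, 0 ≤ (z n).1 x ∧ (z n).1 x ≤ 1) →
      (∀ n, ∀ x ∈ A n, S (z n) x ⊆ A n) →
      (∀ n m, n ≤ m → ∀ x ∈ A n, (z m).1 x = (z n).1 x) →
      ∃ h : Cp X, (∀ x, 0 ≤ h.1 x ∧ h.1 x ≤ 1) ∧ ∀ n, ∀ x ∈ A n, h.1 x = (z n).1 x := by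
    intro A z hA hz hcl hco
    obtain ⟨h, -, hh⟩ := hlimK k0 A z hA (fun i => hB (z i) fun x => by
      rw [abs_le]; constructor <;> linarith [(hz i x).1, (hz i x).2]) hcl hco
    refine ⟨⟨fun x => max 0 (min 1 (h.1 x)), continuous_const.max (continuous_const.min h.2)⟩,
      fun x => ⟨le_max_left _ _, max_le zero_le_one (min_le_left _ _)⟩, fun n x hx => ?_⟩
    show max 0 (min 1 (h.1 x)) = (z n).1 x
    rw [hh n x hx, min_eq_right (hz n x).2, max_eq_right (hz n x).1]
  by_cases hc : ∃ n, ∃ A : Set X, A.Countable ∧ ∃ z : Cp X, ∀ f : Cp X,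
      (∀ x ∈ A, f.1 x = z.1 x) → f ∈ ψ ⁻¹' (K n)
  · obtain ⟨n, A, hA, z, h⟩ := hc
    exact caseI X S hSc (ψ ⁻¹' (K n)) (hlimK n) A hA z h
  · exfalso
    push Not at hc
    refine caseII X S hSc hLim0 (fun T hT => sep_from_countable X S hSc hLim0 T hT)
      (fun n => ψ ⁻¹' (K n)) (fun n => (hKc n).isClosed.preimage hψc)
      (fun i j hij => preimage_mono (hKm hij)) (fun f => hKU (ψ f)) ?_
    intro n A hA z
    obtain ⟨f, hf1, hf2⟩ := hc n A hA z
    exact ⟨f, hf1, hf2⟩


/-- points of `Y` are `G_δ` -/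
theorem gdelta_of_condense (X Y : Type) [TopologicalSpace X] [TopologicalSpace Y]
    [T35Space Y] [LindelofSpace (Cp X)] (φ : Cp X → Y) (hφ : Continuous φ)
    (hb : Function.Bijective φ) (A : Set X) (hA : A.Countable) (hd : Dense A) (y : Y) :
    IsGδ ({y} : Set Y) := by
  classical
  obtain ⟨f, rfl⟩ := hb.2 y
  have hP : ∀ (x : X) (m : ℕ), IsClosed {h : Cp X | 1 / ((m : ℝ) + 1) ≤ |h.1 x - f.1 x|} := by
    intro x m
    refine isClosed_le continuous_const ?_
    exact (((continuous_apply x).comp continuous_subtype_val).sub continuous_const).abs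
  have hset : ({f}ᶜ : Set (Cp X)) = ⋃ x ∈ A, ⋃ m : ℕ, {h : Cp X | 1 / ((m : ℝ) + 1) ≤ |h.1 x - f.1 x|} := by
    ext h
    simp only [mem_compl_iff, mem_singleton_iff, mem_iUnion, mem_setOf_eq, exists_prop]
    constructor
    · intro hne
      by_contra hcon
      push Not at hcon
      apply hne
      apply Subtype.ext
      have hEq : Set.EqOn h.1 f.1 A := by
        intro x hx
        have h0 : |h.1 x - f.1 x| ≤ 0 := by
          refine le_of_forall_pos_lt_add fun ε hε => ?_
          obtain ⟨m, hm⟩ := exists_nat_one_div_lt hε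
          have := hcon x hx m
          linarith
        have := abs_nonpos_iff.mp h0
        linarith
      exact hEq.closure h.2 f.2 |>.mono (by rw [hd.closure_eq]) |> fun h' => funext fun x => h' (mem_univ x)
    · rintro ⟨x, hx, m, hm⟩ rfl
      have : (0:ℝ) < 1 / ((m : ℝ) + 1) := by positivity
      simp at hm
      linarith
  have hL : IsLindelof ({f}ᶜ : Set (Cp X)) := by
    rw [hset]
    refine hA.isLindelof_biUnion fun x _ => ?_
    exact isLindelof_iUnion fun m => (hP x m).isLindelof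
  have hL2 : IsLindelof (φ '' ({f}ᶜ : Set (Cp X))) := hL.image hφ
  have hne : ∀ z : Y, z ≠ φ f → ∃ V W : Set Y, IsOpen V ∧ IsOpen W ∧ z ∈ V ∧ φ f ∈ W ∧ Disjoint V W :=
    fun z hz => t2_separation hz
  choose! V W hV hW hzV hfW hdis using hne
  have him : ∀ z ∈ φ '' ({f}ᶜ : Set (Cp X)), z ≠ φ f := by
    rintro z ⟨h, hh, rfl⟩ heq
    exact hh (hb.1 heq)
  obtain ⟨t, htc, hts, hcov⟩ := hL2.elim_nhds_subcover V fun z hz => (hV z (him z hz)).mem_nhds (hzV z (him z hz))
  have hfin : ({φ f} : Set Y) = ⋂ z ∈ t, W z := by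
    ext w
    simp only [mem_singleton_iff, mem_iInter]
    constructor
    · rintro rfl z hz
      exact hfW z (him z (hts z hz))
    · intro hw
      by_contra hne
      obtain ⟨h, rfl⟩ := hb.2 w
      have hmem : φ h ∈ φ '' ({f}ᶜ : Set (Cp X)) := ⟨h, fun h' => hne (by rw [mem_singleton_iff.mp h']), rfl⟩
      obtain ⟨z, hz, hzV'⟩ := mem_iUnion₂.mp (hcov hmem)
      exact (Set.disjoint_left.mp (hdis z (him z (hts z hz)))) hzV' (hw z hz)
  rw [hfin]
  exact IsGδ.biInter htc fun z hz => (hW z (him z (hts z hz))).isGδ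

/-- over a strongly zero-dimensional space the square of a Lindelöf `C_p(X)` is Lindelöf -/
theorem lindelof_sq_of_zd (X : Type) [TopologicalSpace X] [LindelofSpace (Cp X)]
    (hX : ∀ f : X → ℝ, Continuous f → ∃ W : Set X, IsClopen W ∧ {x | f x ≤ 0} ⊆ W ∧ W ⊆ {x | f x < 1}) :
    LindelofSpace (Cp X × Cp X) := by
  obtain ⟨σ1, σ2, h⟩ := zd_coding
  let T : Cp X → Cp X × Cp X := fun d =>
    (⟨fun x => σ1 (d.1 x), σ1.continuous.comp d.2⟩, ⟨fun x => σ2 (d.1 x), σ2.continuous.comp d.2⟩)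
  have hT : Continuous T := by
    refine Continuous.prodMk ?_ ?_
    · refine Continuous.subtype_mk (continuous_pi fun x => ?_) _
      exact σ1.continuous.comp ((continuous_apply x).comp continuous_subtype_val)
    · refine Continuous.subtype_mk (continuous_pi fun x => ?_) _
      exact σ2.continuous.comp ((continuous_apply x).comp continuous_subtype_val)
  have hsur : Function.Surjective T := by
    rintro ⟨f, g⟩
    obtain ⟨d, hd⟩ := h X (fun f => hX f f.continuous) ⟨f.1, f.2⟩ ⟨g.1, g.2⟩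
    refine ⟨⟨d, d.continuous⟩, ?_⟩
    refine Prod.ext (Subtype.ext (funext fun x => (hd x).1)) (Subtype.ext (funext fun x => (hd x).2))
  constructor
  rw [← hsur.range_eq]
  exact isLindelof_range hT

theorem cosmic_of_sq' (X Y : Type) [TopologicalSpace X] [T35Space X] [TopologicalSpace Y] [T35Space Y]
    [LindelofSpace (Cp X × Cp X)] [SigmaCompactSpace Y] (φ : Cp X → Y) (hφ : Continuous φ)
    (hb : Function.Bijective φ) :
    ∃ 𝒩 : Set (Set Y), 𝒩.Countable ∧ ∀ y : Y, ∀ U : Set Y, IsOpen U → y ∈ U →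
      ∃ N ∈ 𝒩, y ∈ N ∧ N ⊆ U := by
  haveI : LindelofSpace (Cp X) := by
    constructor
    haveI : Nonempty (Cp X) := ⟨⟨fun _ => 0, continuous_const⟩⟩
    have hs : Function.Surjective (Prod.fst : Cp X × Cp X → Cp X) := Prod.fst_surjective
    rw [← hs.range_eq]
    exact isLindelof_range continuous_fst
  obtain ⟨A, hA, hd⟩ := separable_of_condense X Y φ hφ hb
  exact cosmic_of_sq X Y φ hφ hb A hA hd

end Pool.Agent.Helper425.FA
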